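import Mathlib
open MeasureTheory Set
open scoped ContDiff ENNReal
noncomputable section
namespace Porous3

/-- three dimensional space -/
abbrev R3 : Type := Fin 3 → ℝ

/-- unit vector of the `i`-th coordinate axis -/
abbrev e (i : Fin 3) : R3 := Pi.single i 1

/-- A function on `ℝ³` is periodic for the lattice generated by the basis `b`. -/
def Per {α : Type*} (b : Module.Basis (Fin 3) ℝ R3) (f : R3 → α) : Prop :=
  ∀ (i : Fin 3) (x : R3), f (x + b i) = f x

/-- The (half-open) period cell of the lattice generated by `b`. -/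
abbrev cell (b : Module.Basis (Fin 3) ℝ R3) : Set R3 := ZSpan.fundamentalDomain b

/-- `u` is a periodic displacement of class `H¹` (locally), with weak partial derivatives `G j = ∂u/∂x_j`. -/
structure IsH1Per (b : Module.Basis (Fin 3) ℝ R3) (u : R3 → R3) (G : Fin 3 → R3 → R3) : Prop where
  per_u : Per b u
  per_G : ∀ j, Per b (G j)
  mem_u : MemLp u 2 (volume.restrict (cell b))
  mem_G : ∀ j, MemLp (G j) 2 (volume.restrict (cell b))
  weak : ∀ (j : Fin 3) (ψ : R3 → ℝ), ContDiff ℝ ∞ ψ → Per b ψ →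
    ∫ x in cell b, ψ x • G j x = - ∫ x in cell b, (fderiv ℝ ψ x (e j)) • u x

/-- squared Euclidean (Frobenius) norm of a `3 × 3` array -/
def nsq (p : Fin 3 → Fin 3 → ℝ) : ℝ := ∑ i, ∑ j, p i j ^ 2
/-- trace -/
def tr3 (p : Fin 3 → Fin 3 → ℝ) : ℝ := ∑ i, p i i
/-- squared norm of the deviatoric part -/
def dsq (p : Fin 3 → Fin 3 → ℝ) : ℝ := nsq p - tr3 p ^ 2 / 3

/-- Energy density `κ (tr p)² + 2 μ |dev p|²` of the phase with bulk modulus `κ ∈ [0,∞]` and shear modulus `μ` at the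
symmetric strain `p`; `κ = ∞` is the incompressible phase (`∞ * 0 = 0`). -/
def W (κ : ℝ≥0∞) (μ : ℝ) (p : Fin 3 → Fin 3 → ℝ) : ℝ≥0∞ :=
  κ * ENNReal.ofReal (tr3 p ^ 2) + ENNReal.ofReal (2 * μ * dsq p)

/-- total strain: average strain `E` plus symmetrised gradient (`G j = ∂_j u`) -/
def strain (E : Fin 3 → Fin 3 → ℝ) (G : Fin 3 → R3 → R3) (x : R3) : Fin 3 → Fin 3 → ℝ :=
  fun i j => E i j + (G j x i + G i x j) / 2

/-- Effective energy of the periodic composite with solid part `Ω` (the complement is void) at the average strain `E`. -/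
def effE (b : Module.Basis (Fin 3) ℝ R3) (Ω : Set R3) (κ : ℝ≥0∞) (μ : ℝ) (E : Fin 3 → Fin 3 → ℝ) : ℝ≥0∞ :=
  ⨅ (u : R3 → R3) (G : Fin 3 → R3 → R3) (_ : IsH1Per b u G),
    (∫⁻ x in Ω ∩ cell b, W κ μ (strain E G x)) / volume (cell b)

/-- Kronecker symbol -/
def dlt (i j : Fin 3) : ℝ := if i = j then 1 else 0

/-- kinematic certificate: the strain `I + e(u)` is trace free on the solid `Ω`, with mean square at most `ε` -/
def Kin (b : Module.Basis (Fin 3) ℝ R3) (Ω : Set R3) (ε : ℝ) : Prop :=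
  ∃ u : R3 → R3, ContDiff ℝ ∞ u ∧ Per b u ∧
    (∀ x ∈ Ω, ∑ i, (1 + fderiv ℝ u x (e i) i) = 0) ∧
    ∫ x in Ω ∩ cell b, nsq (strain dlt (fun j x => fderiv ℝ u x (e j)) x) ≤ ε * (volume (cell b)).toReal

/-- static certificate: every trace free stress `Q` is close to a smooth divergence free stress carried by `Ω` -/
def Stat (b : Module.Basis (Fin 3) ℝ R3) (Ω : Set R3) (ε : ℝ) : Prop :=
  ∀ Q : Fin 3 → Fin 3 → ℝ, (∀ i j, Q i j = Q j i) → tr3 Q = 0 →
    ∃ σ : R3 → Fin 3 → Fin 3 → ℝ, (∀ i j, ContDiff ℝ ∞ (fun x => σ x i j)) ∧ Per b σ ∧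
      (∀ x i j, σ x i j = σ x j i) ∧ (∀ x i, ∑ j, fderiv ℝ (fun y => σ y i j) x (e j) = 0) ∧
      (∀ x, x ∉ Ω → σ x = 0) ∧
      ∫ x in cell b, nsq (fun i j => σ x i j - Q i j) ≤ ε * nsq Q * (volume (cell b)).toReal

end Porous3
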