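import Pool.Agent.Porous3.Base
open MeasureTheory Set
open scoped ContDiff ENNReal
noncomputable section
namespace Porous3






theorem per_span {α : Type*} (b : Module.Basis (Fin 3) ℝ R3) (f : R3 → α) (hf : Per b f)
    (g : R3) (hg : g ∈ Submodule.span ℤ (Set.range b)) : ∀ x, f (g + x) = f x := by
  induction hg using Submodule.span_induction with
  | mem g hg =>
    obtain ⟨i, rfl⟩ := hg
    intro x
    rw [add_comm]; exact hf i x
  | zero => intro x; rw [zero_add]
  | add g g' _ _ h h' =>
    intro x
    rw [add_assoc, h, h']
  | smul n g _ h =>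
    have hn : ∀ k : ℕ, ∀ x, f ((k : ℤ) • g + x) = f x := by
      intro k
      induction k with
      | zero => intro x; simp
      | succ k ih =>
        intro x
        have h1 : ((k + 1 : ℕ) : ℤ) • g + x = g + ((k : ℤ) • g + x) := by
          push_cast
          rw [add_smul, one_smul]; abel
        rw [h1, h, ih]
    intro x
    obtain ⟨k, rfl | rfl⟩ := n.eq_nat_or_neg
    · exact hn k x
    · have h2 := hn k (-(k : ℤ) • g + x)
      rw [← h2]
      congr 1
      rw [neg_smul]; abel

open scoped Pointwise in
/-- translation invariance of the integral of a periodic function over the cell -/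
theorem integral_cell_add {E : Type*} [NormedAddCommGroup E] [NormedSpace ℝ E]
    (b : Module.Basis (Fin 3) ℝ R3) (f : R3 → E) (hf : Per b f) (v : R3) :
    ∫ x in cell b, f (x + v) = ∫ x in cell b, f x := by
  have h1 := ZSpan.isAddFundamentalDomain' b (volume : Measure R3)
  have h2 : IsAddFundamentalDomain (↥(Submodule.span ℤ (Set.range b)).toAddSubgroup)
      (v +ᵥ ZSpan.fundamentalDomain b) (volume : Measure R3) := h1.vadd_of_comm v
  have hcount : Countable (↥(Submodule.span ℤ (Set.range b)).toAddSubgroup) :=
    inferInstanceAs (Countable (↥(Submodule.span ℤ (Set.range b))))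
  have h3 := h1.setIntegral_eq h2 (f := f) (fun g x => per_span b f hf g.1 g.2 x)
  rw [h3]
  have h4 := (measurePreserving_add_right (volume : Measure R3) v).setIntegral_preimage_emb
    (measurableEmbedding_addRight v) f (v +ᵥ ZSpan.fundamentalDomain b)
  rw [← h4]
  congr 2
  ext x
  rw [Set.mem_preimage, Set.mem_vadd_set_iff_neg_vadd_mem]
  rw [vadd_eq_add]
  have h5 : -v + (x + v) = x := by ring
  rw [h5]

/-- the integral over the cell of a derivative of a smooth periodic function vanishes -/
theorem integral_cell_deriv {E : Type*} [NormedAddCommGroup E] [NormedSpace ℝ E] [CompleteSpace E]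
    (b : Module.Basis (Fin 3) ℝ R3) (f : R3 → E) (hf : ContDiff ℝ ∞ f) (hper : Per b f) (h : R3) :
    ∫ x in cell b, fderiv ℝ f x h = 0 := by
  obtain ⟨R, hR⟩ := (ZSpan.fundamentalDomain_isBounded b).subset_closedBall (0 : R3)
  have hfin : (volume : Measure R3) (cell b) < ⊤ :=
    (measure_mono hR).trans_lt (isCompact_closedBall (0 : R3) R).measure_lt_top
  have hms : MeasurableSet (cell b) := ZSpan.fundamentalDomain_measurableSet b
  have hfm : IsFiniteMeasure ((volume : Measure R3).restrict (cell b)) := ⟨by
    rw [Measure.restrict_apply_univ]; exact hfin⟩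
  have hdf : Differentiable ℝ f := hf.differentiable (by simp)
  have hcd : Continuous fun x => fderiv ℝ f x h :=
    (hf.continuous_fderiv (by simp)).clm_apply continuous_const
  obtain ⟨C, hC⟩ := (isCompact_closedBall (0 : R3) (R + ‖h‖)).exists_bound_of_continuousOn
    hcd.continuousOn
  have hmem : ∀ x ∈ cell b, ∀ t ∈ Metric.ball (0 : ℝ) 1,
      x + t • h ∈ Metric.closedBall (0 : R3) (R + ‖h‖) := by
    intro x hx t ht
    have h1 := hR hx
    rw [mem_closedBall_zero_iff] at h1 ⊢
    rw [mem_ball_zero_iff] at ht
    refine (norm_add_le _ _).trans (add_le_add h1 ?_)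
    rw [norm_smul]
    have h2 := norm_nonneg h
    calc ‖t‖ * ‖h‖ ≤ 1 * ‖h‖ := mul_le_mul_of_nonneg_right ht.le h2
      _ = ‖h‖ := one_mul _
  have key := hasDerivAt_integral_of_dominated_loc_of_deriv_le
    (μ := (volume : Measure R3).restrict (cell b)) (𝕜 := ℝ) (E := E)
    (bound := fun _ => C) (F := fun t x => f (x + t • h)) (x₀ := (0 : ℝ))
    (s := Metric.ball (0 : ℝ) 1) (Metric.ball_mem_nhds _ one_pos)
    (Filter.Eventually.of_forall fun t => by
      have : Continuous fun x : R3 => f (x + t • h) := by
        have := hf.continuous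
        fun_prop
      exact this.aestronglyMeasurable)
    (by
      have h1 : Continuous fun x : R3 => f (x + (0 : ℝ) • h) := by
        have := hf.continuous
        fun_prop
      have h2 : IntegrableOn (fun x : R3 => f (x + (0 : ℝ) • h)) (Metric.closedBall 0 R) volume :=
        h1.continuousOn.integrableOn_compact (isCompact_closedBall _ _)
      exact h2.mono_set hR)
    (F' := fun t x => fderiv ℝ f (x + t • h) h)
    (by
      have h1 : Continuous fun x : R3 => fderiv ℝ f (x + (0 : ℝ) • h) h :=
        hcd.comp (by fun_prop)
      exact h1.aestronglyMeasurable)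
    (by
      refine (ae_restrict_iff' hms).2 (Filter.Eventually.of_forall fun x hx t ht => ?_)
      exact hC _ (hmem x hx t ht))
    (integrable_const C)
    (Filter.Eventually.of_forall fun x t _ => by
      have h1 : HasDerivAt (fun t : ℝ => x + t • h) h t := by
        have := ((hasDerivAt_id t).smul_const h).const_add x
        simpa using this
      exact (hdf (x + t • h)).hasFDerivAt.comp_hasDerivAt t h1)
  have h2 := key.2
  have h3 : (fun t : ℝ => ∫ x in cell b, f (x + t • h)) = fun _ => ∫ x in cell b, f x := by
    funext t
    exact integral_cell_add b f hper (t • h)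
  rw [h3] at h2
  have h4 := h2.unique (hasDerivAt_const (0 : ℝ) (∫ x in cell b, f x))
  rw [← h4]
  refine integral_congr_ae (Filter.Eventually.of_forall fun x => ?_)
  simp

end Porous3
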