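import Pool.Agent.Porous3.G2
open MeasureTheory Set
open scoped ContDiff ENNReal
noncomputable section
namespace Porous3







theorem g3_bdd (b : Module.Basis (Fin 3) ℝ R3) {F : Type*} [NormedAddCommGroup F]
    {g : R3 → F} (hg : Continuous g) : ∃ C : ℝ, ∀ x ∈ cell b, ‖g x‖ ≤ C := by
  obtain ⟨R, hR⟩ := (ZSpan.fundamentalDomain_isBounded b).subset_closedBall 0
  obtain ⟨C, hC⟩ := (isCompact_closedBall (0 : R3) R).exists_bound_of_continuousOn hg.continuousOn
  exact ⟨C, fun x hx => hC x (hR hx)⟩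

theorem g3_fin (b : Module.Basis (Fin 3) ℝ R3) : IsFiniteMeasure (volume.restrict (cell b)) :=
  ⟨by rw [Measure.restrict_apply_univ]
      exact (ZSpan.fundamentalDomain_isBounded b).measure_lt_top⟩

theorem g3_meas (b : Module.Basis (Fin 3) ℝ R3) : MeasurableSet (cell b) :=
  ZSpan.fundamentalDomain_measurableSet b

theorem g3_memLp (b : Module.Basis (Fin 3) ℝ R3) {g : R3 → R3} (hg : Continuous g) :
    MemLp g 2 (volume.restrict (cell b)) := by
  have := g3_fin b
  obtain ⟨C, hC⟩ := g3_bdd b hg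
  refine MemLp.of_bound hg.aestronglyMeasurable C ?_
  exact (ae_restrict_iff' (g3_meas b)).2 (Filter.Eventually.of_forall hC)

theorem g3_int (b : Module.Basis (Fin 3) ℝ R3) {ψ : R3 → ℝ} (hψ : Continuous ψ) {G : R3 → R3}
    (hG : MemLp G 2 (volume.restrict (cell b))) :
    Integrable (fun x => ψ x • G x) (volume.restrict (cell b)) := by
  have := g3_fin b
  obtain ⟨C, hC⟩ := g3_bdd b hψ
  have h1 : Integrable G (volume.restrict (cell b)) := hG.integrable one_le_two
  refine Integrable.mono' (h1.norm.const_mul C) (hψ.aestronglyMeasurable.smul hG.1) ?_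
  refine (ae_restrict_iff' (g3_meas b)).2 (Filter.Eventually.of_forall fun x hx => ?_)
  rw [norm_smul]
  exact mul_le_mul_of_nonneg_right (hC x hx) (norm_nonneg _)

theorem g3_fderiv_per {F : Type*} [NormedAddCommGroup F] [NormedSpace ℝ F]
    {b : Module.Basis (Fin 3) ℝ R3} {u : R3 → F} (hper : Per b u) (h : R3) :
    Per b (fun x => fderiv ℝ u x h) := by
  intro i x
  have e : (fun y => u (y + b i)) = u := funext fun y => hper i y
  have h1 := fderiv_comp_add_right (𝕜 := ℝ) (f := u) (x := x) (b i)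
  rw [e] at h1
  show fderiv ℝ u (x + b i) h = fderiv ℝ u x h
  rw [← h1]

theorem g3_fderiv_cont {F : Type*} [NormedAddCommGroup F] [NormedSpace ℝ F]
    {u : R3 → F} (hu : ContDiff ℝ ∞ u) (h : R3) : Continuous (fun x => fderiv ℝ u x h) :=
  (hu.continuous_fderiv (by simp)).clm_apply continuous_const

theorem g3_weak
    (hder : ∀ (b : Module.Basis (Fin 3) ℝ R3) (f : R3 → R3), ContDiff ℝ ∞ f → Per b f → ∀ h : R3,
      ∫ x in cell b, fderiv ℝ f x h = 0)
    (b : Module.Basis (Fin 3) ℝ R3) (u : R3 → R3) (hu : ContDiff ℝ ∞ u) (hper : Per b u) (h : R3)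
    (ψ : R3 → ℝ) (hψ : ContDiff ℝ ∞ ψ) (hψp : Per b ψ) :
    ∫ x in cell b, ψ x • fderiv ℝ u x h = - ∫ x in cell b, (fderiv ℝ ψ x h) • u x := by
  have h1 := hder b (fun x => ψ x • u x) (hψ.smul hu)
    (fun i x => by show ψ (x + b i) • u (x + b i) = ψ x • u x; rw [hψp i x, hper i x]) h
  have h2 : ∀ x, fderiv ℝ (fun x => ψ x • u x) x h =
      ψ x • fderiv ℝ u x h + (fderiv ℝ ψ x h) • u x := by
    intro x
    have d1 : DifferentiableAt ℝ ψ x := (hψ.differentiable (by simp)) x
    have d2 : DifferentiableAt ℝ u x := (hu.differentiable (by simp)) x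
    have h3 : fderiv ℝ (fun x => ψ x • u x) x = _ := (d1.hasFDerivAt.smul d2.hasFDerivAt).fderiv
    rw [h3]
    simp
  simp only [h2] at h1
  rw [integral_add] at h1
  · exact eq_neg_of_add_eq_zero_left h1
  · exact g3_int b hψ.continuous (g3_memLp b (g3_fderiv_cont hu h))
  · exact g3_int b (g3_fderiv_cont hψ h) (g3_memLp b hu.continuous)

/-- smooth periodic displacements are admissible -/
theorem isH1Per_of_contDiff (b : Module.Basis (Fin 3) ℝ R3) (u : R3 → R3) (hu : ContDiff ℝ ∞ u) (hper : Per b u) :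
    IsH1Per b u (fun j x => fderiv ℝ u x (e j)) where
  per_u := hper
  per_G := fun j => g3_fderiv_per hper (e j)
  mem_u := g3_memLp b hu.continuous
  mem_G := fun j => g3_memLp b (g3_fderiv_cont hu (e j))
  weak := fun j ψ hψ hψp => g3_weak (fun b f hf hp h => integral_cell_deriv b f hf hp h) b u hu hper (e j) ψ hψ hψp

end Porous3
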