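import Pool.Agent.Porous3.GU
open MeasureTheory Set
open scoped ContDiff ENNReal
noncomputable section
namespace Porous3

/-- static certificate of a general lattice: same as `Stat` -/
lemma pointwise {κ : ℝ≥0∞} (hκ : κ ≠ 0) {μ : ℝ} (hμ : 0 < μ) (s p : Fin 3 → Fin 3 → ℝ) :
    ENNReal.ofReal (2 * ip s p - nsq s / (2 * μ) - tr3 s ^ 2 * (κ⁻¹).toReal / 9) ≤ W κ μ p := by
  have hB : 2 * ip (dev s) (dev p) - dsq s / (2 * μ) ≤ 2 * μ * dsq p := by
    rw [← nsq_dev, ← nsq_dev]
    have h1 : 2 * μ * nsq (dev p) - (2 * ip (dev s) (dev p) - nsq (dev s) / (2 * μ)) =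
        (∑ i, ∑ j, (2 * μ * dev p i j - dev s i j) ^ 2) / (2 * μ) := by
      simp only [nsq, ip, Fin.sum_univ_three]
      field_simp
      ring
    have h2 : 0 ≤ (∑ i, ∑ j, (2 * μ * dev p i j - dev s i j) ^ 2) / (2 * μ) := by positivity
    linarith
  have hA : ENNReal.ofReal (2 / 3 * tr3 s * tr3 p - tr3 s ^ 2 * (κ⁻¹).toReal / 9) ≤
      κ * ENNReal.ofReal (tr3 p ^ 2) := by
    by_cases htop : κ = ⊤
    · subst htop
      by_cases ht : tr3 p = 0
      · rw [ht]
        simp
      · have : ENNReal.ofReal (tr3 p ^ 2) ≠ 0 := by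
          simp only [ne_eq, ENNReal.ofReal_eq_zero, not_le]
          positivity
        rw [ENNReal.top_mul this]
        exact le_top
    · obtain ⟨k, hk, rfl⟩ : ∃ k : ℝ, 0 < k ∧ κ = ENNReal.ofReal k :=
        ⟨κ.toReal, ENNReal.toReal_pos hκ htop, (ENNReal.ofReal_toReal htop).symm⟩
      rw [← ENNReal.ofReal_mul hk.le, ← ENNReal.ofReal_inv_of_pos hk,
        ENNReal.toReal_ofReal (by positivity)]
      apply ENNReal.ofReal_le_ofReal
      have h1 : k * tr3 p ^ 2 - (2 / 3 * tr3 s * tr3 p - tr3 s ^ 2 * k⁻¹ / 9) =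
          (3 * k * tr3 p - tr3 s) ^ 2 / (9 * k) := by
        field_simp
        ring
      have h2 : 0 ≤ (3 * k * tr3 p - tr3 s) ^ 2 / (9 * k) := by positivity
      linarith
  have hip : ip s p = ip (dev s) (dev p) + tr3 s * tr3 p / 3 := by
    simp only [ip, dev, tr3, dlt, Fin.sum_univ_three]
    simp
    ring
  have hds : dsq s / (2 * μ) ≤ nsq s / (2 * μ) := by
    apply div_le_div_of_nonneg_right (dsq_le s) (by positivity)
  unfold W
  calc ENNReal.ofReal (2 * ip s p - nsq s / (2 * μ) - tr3 s ^ 2 * (κ⁻¹).toReal / 9)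
      ≤ ENNReal.ofReal ((2 / 3 * tr3 s * tr3 p - tr3 s ^ 2 * (κ⁻¹).toReal / 9) +
        (2 * ip (dev s) (dev p) - dsq s / (2 * μ))) := by
        apply ENNReal.ofReal_le_ofReal
        rw [hip]
        linarith
    _ ≤ ENNReal.ofReal (2 / 3 * tr3 s * tr3 p - tr3 s ^ 2 * (κ⁻¹).toReal / 9) +
        ENNReal.ofReal (2 * ip (dev s) (dev p) - dsq s / (2 * μ)) := ENNReal.ofReal_add_le
    _ ≤ _ := add_le_add hA (ENNReal.ofReal_le_ofReal hB)

lemma ofReal_int_le {α : Type*} [MeasurableSpace α] {ν : Measure α} {f : α → ℝ}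
    (hf : Integrable f ν) : ENNReal.ofReal (∫ x, f x ∂ν) ≤ ∫⁻ x, ENNReal.ofReal (f x) ∂ν := by
  have h1 : ∫ x, f x ∂ν ≤ ∫ x, max (f x) 0 ∂ν :=
    integral_mono hf hf.pos_part fun x => le_max_left _ _
  refine (ENNReal.ofReal_le_ofReal h1).trans ?_
  rw [ofReal_integral_eq_lintegral_ofReal hf.pos_part
    (Filter.Eventually.of_forall fun x => le_max_right _ _)]
  apply le_of_eq
  refine lintegral_congr fun x => ?_
  rcases le_total (f x) 0 with h | h
  · rw [max_eq_right h, ENNReal.ofReal_zero, ENNReal.ofReal_of_nonpos h]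
  · rw [max_eq_left h]

/-- virtual work: a smooth periodic divergence free symmetric stress does no work on a periodic displacement -/
lemma virtual_work {b : Module.Basis (Fin 3) ℝ R3} {u : R3 → R3} {G : Fin 3 → R3 → R3} (h : IsH1Per b u G)
    {σ : R3 → Fin 3 → Fin 3 → ℝ} (hσ : ∀ i j, ContDiff ℝ ∞ (fun x => σ x i j)) (hper : Per b σ)
    (hdiv : ∀ x i, ∑ j, fderiv ℝ (fun y => σ y i j) x (e j) = 0) :
    (∀ i j, IntegrableOn (fun x => σ x i j * G j x i) (cell b)) ∧
      ∑ i, ∑ j, ∫ x in cell b, σ x i j * G j x i = 0 := by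
  have hint : ∀ i j, Integrable (fun x => σ x i j • G j x) (volume.restrict (cell b)) := fun i j =>
    g3_int b (hσ i j).continuous (h.mem_G j)
  have hint2 : ∀ i j, Integrable (fun x => (fderiv ℝ (fun y => σ y i j) x (e j)) • u x)
      (volume.restrict (cell b)) := fun i j =>
    g3_int b (g3_fderiv_cont (hσ i j) (e j)) h.mem_u
  have hcomp : ∀ (i : Fin 3) {f : R3 → R3}, Integrable f (volume.restrict (cell b)) →
      Integrable (fun x => f x i) (volume.restrict (cell b)) ∧
      ∫ x in cell b, f x i = (∫ x in cell b, f x) i := by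
    intro i f hf
    have h1 := (ContinuousLinearMap.proj (R := ℝ) (φ := fun _ : Fin 3 => ℝ) i).integral_comp_comm hf
    have h2 := (ContinuousLinearMap.proj (R := ℝ) (φ := fun _ : Fin 3 => ℝ) i).integrable_comp hf
    exact ⟨h2, h1⟩
  refine ⟨fun i j => ?_, ?_⟩
  · exact (hcomp i (hint i j)).1
  · have h1 : ∀ i j, ∫ x in cell b, σ x i j * G j x i =
        - ∫ x in cell b, (fderiv ℝ (fun y => σ y i j) x (e j)) * u x i := by
      intro i j
      have hw := h.weak j (fun x => σ x i j) (hσ i j) (fun k x => by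
        show σ (x + b k) i j = σ x i j
        rw [hper k x])
      have h2 := (hcomp i (hint i j)).2
      have h3 := (hcomp i (hint2 i j)).2
      have h4 : ∫ x in cell b, σ x i j * G j x i = (∫ x in cell b, σ x i j • G j x) i := h2
      have h5 : ∫ x in cell b, (fderiv ℝ (fun y => σ y i j) x (e j)) * u x i =
          (∫ x in cell b, (fderiv ℝ (fun y => σ y i j) x (e j)) • u x) i := h3
      rw [h4, h5, hw]
      rfl
    have h2 : ∀ i, ∑ j, ∫ x in cell b, σ x i j * G j x i = 0 := by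
      intro i
      have hI : ∀ j ∈ (Finset.univ : Finset (Fin 3)),
          Integrable (fun x => fderiv ℝ (fun y => σ y i j) x (e j) * u x i) (volume.restrict (cell b)) :=
        fun j _ => (hcomp i (hint2 i j)).1
      rw [Finset.sum_congr rfl fun j _ => h1 i j, Finset.sum_neg_distrib, neg_eq_zero,
        ← integral_finsetSum _ hI]
      have : ∀ x, ∑ j, fderiv ℝ (fun y => σ y i j) x (e j) * u x i = 0 := by
        intro x
        rw [← Finset.sum_mul, hdiv x i, zero_mul]
      rw [integral_congr_ae (Filter.Eventually.of_forall this), integral_zero]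
    exact Finset.sum_eq_zero fun i _ => h2 i

/-- lower bound from the static certificate -/
theorem lower {b : Module.Basis (Fin 3) ℝ R3} {Ω : Set R3} (hΩm : MeasurableSet Ω) {ε₂ : ℝ} (hε₂ : 0 < ε₂)
    (hS : Stat b Ω ε₂) (κ : ℝ≥0∞) (hκ : κ ≠ 0) (μ : ℝ) (hμ : 0 < μ) (θ : ℝ) (hθ : 0 < θ)
    (E : Fin 3 → Fin 3 → ℝ) (hE : ∀ i j, E i j = E j i) :
    ENNReal.ofReal (2 * μ * dsq E - (θ * (1 + 2 * μ) + 4 * μ ^ 2 * ε₂ * (1 / θ + (1 + 1 / θ) / (2 * μ) + (κ⁻¹).toReal / 3)) * nsq E)
      ≤ effE b Ω κ μ E := by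
  set k : ℝ := (κ⁻¹).toReal with hk
  have hk0 : 0 ≤ k := ENNReal.toReal_nonneg
  set Q : Fin 3 → Fin 3 → ℝ := fun i j => 2 * μ * dev E i j with hQ
  have hQs : ∀ i j, Q i j = Q j i := by
    intro i j
    simp only [hQ, dev, dlt, hE i j]
    by_cases h : i = j
    · rw [h]
    · rw [if_neg h, if_neg (Ne.symm h)]
  have hQt : tr3 Q = 0 := by
    simp only [hQ, dev, dlt, tr3, Fin.sum_univ_three]
    simp
    ring
  obtain ⟨σ, hσ, hσp, hσs, hdiv, hσ0, hσE⟩ := hS Q hQs hQt
  have hcm : MeasurableSet (cell b) := ZSpan.fundamentalDomain_measurableSet b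
  have hV := cell_vol_pos b
  set V := (volume (cell b)).toReal with hVdef
  have hvV : volume (cell b) = ENNReal.ofReal V := (ENNReal.ofReal_toReal (cell_vol_top b)).symm
  have hfin : IsFiniteMeasure (volume.restrict (cell b)) := g3_fin b
  unfold effE
  refine le_iInf fun u => le_iInf fun G => le_iInf fun hu => ?_
  rw [hvV, ENNReal.le_div_iff_mul_le (Or.inl (by simpa using hV)) (Or.inl ENNReal.ofReal_ne_top),
    ← ENNReal.ofReal_mul' hV.le]
  obtain ⟨hGi, hG0⟩ := virtual_work hu hσ hσp hdiv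
  have hσc : ∀ i j, Continuous fun x => σ x i j := fun i j => (hσ i j).continuous
  -- the integrand
  set f : R3 → ℝ := fun x => 2 * ip (σ x) (strain E G x) - nsq (σ x) / (2 * μ) - tr3 (σ x) ^ 2 * k / 9 with hf
  have hip : ∀ x, ip (σ x) (strain E G x) = ip (σ x) E + ∑ i, ∑ j, σ x i j * G j x i := by
    intro x
    have h1 : ∑ i, ∑ j, σ x i j * G j x i = ∑ i, ∑ j, σ x i j * G i x j := by
      rw [Finset.sum_comm]
      refine Finset.sum_congr rfl fun i _ => Finset.sum_congr rfl fun j _ => ?_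
      rw [hσs x j i]
    have h2 : ip (σ x) (strain E G x) = ip (σ x) E + (∑ i, ∑ j, σ x i j * G j x i) / 2 +
        (∑ i, ∑ j, σ x i j * G i x j) / 2 := by
      simp only [ip, strain, Fin.sum_univ_three]
      ring
    rw [h2, ← h1]; ring
  have i1 : IntegrableOn (fun x => ip (σ x) E) (cell b) := by
    refine cont_int b ?_
    unfold ip
    exact continuous_finsetSum _ fun i _ => continuous_finsetSum _ fun j _ => (hσc i j).mul continuous_const
  have i2 : IntegrableOn (fun x => ∑ i, ∑ j, σ x i j * G j x i) (cell b) :=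
    integrable_finsetSum _ fun i _ => integrable_finsetSum _ fun j _ => hGi i j
  have cn : Continuous fun x => nsq (σ x) := nsq_cont hσc
  have ct : Continuous fun x => tr3 (σ x) := by
    unfold tr3
    exact continuous_finsetSum _ fun i _ => hσc i i
  have i3 : IntegrableOn (fun x => nsq (σ x) / (2 * μ)) (cell b) := cont_int b (cn.div_const _)
  have i4 : IntegrableOn (fun x => tr3 (σ x) ^ 2 * k / 9) (cell b) :=
    cont_int b (((ct.pow 2).mul continuous_const).div_const _)
  have hfi : IntegrableOn f (cell b) := by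
    have h1 : IntegrableOn (fun x => 2 * (ip (σ x) E + ∑ i, ∑ j, σ x i j * G j x i)) (cell b) :=
      (i1.add i2).const_mul 2
    have h2 : f = fun x => 2 * (ip (σ x) E + ∑ i, ∑ j, σ x i j * G j x i) - nsq (σ x) / (2 * μ) -
        tr3 (σ x) ^ 2 * k / 9 := by
      funext x
      simp only [hf, hip]
    rw [h2]
    exact (h1.sub i3).sub i4
  have hfint : ∫ x in cell b, f x = ∫ x in cell b, (2 * ip (σ x) E - nsq (σ x) / (2 * μ) - tr3 (σ x) ^ 2 * k / 9) := by
    have h2 : ∀ x, f x = (2 * ip (σ x) E - nsq (σ x) / (2 * μ) - tr3 (σ x) ^ 2 * k / 9) +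
        2 * (∑ i, ∑ j, σ x i j * G j x i) := by
      intro x
      simp only [hf, hip]
      ring
    have h3 : IntegrableOn (fun x => 2 * ip (σ x) E - nsq (σ x) / (2 * μ) - tr3 (σ x) ^ 2 * k / 9) (cell b) :=
      ((i1.const_mul 2).sub i3).sub i4
    rw [integral_congr_ae (Filter.Eventually.of_forall h2), integral_add h3 (i2.const_mul 2),
      integral_const_mul, integral_finsetSum _ fun i _ => integrable_finsetSum _ fun j _ => hGi i j]
    have h4 : ∑ i, ∫ x in cell b, ∑ j, σ x i j * G j x i = 0 := by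
      rw [← hG0]
      exact Finset.sum_congr rfl fun i _ => integral_finsetSum _ fun j _ => hGi i j
    rw [h4]; ring
  -- compare with the energy
  have hmain : ENNReal.ofReal (∫ x in cell b, f x) ≤ ∫⁻ x in Ω ∩ cell b, W κ μ (strain E G x) := by
    refine (ofReal_int_le hfi).trans ?_
    have h1 : ∀ x, ENNReal.ofReal (f x) ≤ Ω.indicator (fun x => W κ μ (strain E G x)) x := by
      intro x
      by_cases hx : x ∈ Ω
      · rw [Set.indicator_of_mem hx]
        exact pointwise hκ hμ (σ x) (strain E G x)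
      · have h0 := hσ0 x hx
        have : f x = 0 := by
          simp only [hf, h0, ip, nsq, tr3, Pi.zero_apply]
          simp
        rw [this, ENNReal.ofReal_zero]
        exact bot_le
    refine (lintegral_mono h1).trans ?_
    rw [lintegral_indicator hΩm, Measure.restrict_restrict hΩm]
  refine le_trans (ENNReal.ofReal_le_ofReal ?_) hmain
  rw [hfint]
  -- lower bound of the integral
  set D : R3 → ℝ := fun x => nsq (fun i j => σ x i j - Q i j) with hD
  have hDc : Continuous D := nsq_cont fun i j => (hσc i j).sub continuous_const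
  have hpt : ∀ x, 2 * μ * dsq E - θ * (1 + 2 * μ) * nsq E -
      (1 / θ + (1 + 1 / θ) / (2 * μ) + k / 3) * D x ≤
      2 * ip (σ x) E - nsq (σ x) / (2 * μ) - tr3 (σ x) ^ 2 * k / 9 := by
    intro x
    set τ : Fin 3 → Fin 3 → ℝ := fun i j => σ x i j - Q i j with hτ
    have hστ : σ x = fun i j => Q i j + τ i j := by
      funext i j
      simp only [hτ]; ring
    have e1 : ip (σ x) E = ip Q E + ip τ E := by
      rw [hστ]
      simp only [ip, Fin.sum_univ_three]
      ring
    have e2 : ip Q E = 2 * μ * dsq E := by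
      simp only [ip, hQ, dev, dsq, nsq, tr3, dlt, Fin.sum_univ_three]
      simp
      ring
    have e3 : nsq Q = 4 * μ ^ 2 * dsq E := by
      rw [← nsq_dev]
      simp only [hQ, nsq, Fin.sum_univ_three]
      ring
    have e4 : tr3 (σ x) = tr3 τ := by
      have : tr3 (σ x) = tr3 Q + tr3 τ := by
        rw [hστ]
        simp only [tr3, Fin.sum_univ_three]
        ring
      rw [this, hQt, zero_add]
    have e5 : tr3 τ ^ 2 ≤ 3 * nsq τ := by
      rw [nsq_eq]
      simp only [tr3, Fin.sum_univ_three]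
      nlinarith [sq_nonneg (τ 0 0 - τ 1 1), sq_nonneg (τ 0 0 - τ 2 2), sq_nonneg (τ 1 1 - τ 2 2),
        sq_nonneg (τ 0 1), sq_nonneg (τ 0 2), sq_nonneg (τ 1 0), sq_nonneg (τ 1 2), sq_nonneg (τ 2 0),
        sq_nonneg (τ 2 1)]
    have e6 : -(θ * nsq E + nsq τ / θ) ≤ 2 * ip τ E := by
      have h1 : 2 * ip τ E + (θ * nsq E + nsq τ / θ) = (∑ i, ∑ j, (θ * E i j + τ i j) ^ 2) / θ := by
        simp only [ip, nsq, Fin.sum_univ_three]
        field_simp
        ring
      have h2 : 0 ≤ (∑ i, ∑ j, (θ * E i j + τ i j) ^ 2) / θ := by positivity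
      linarith
    have e7 : nsq (σ x) ≤ (1 + θ) * nsq Q + (1 + 1 / θ) * nsq τ := by
      rw [hστ]
      have h1 : (1 + θ) * nsq Q + (1 + 1 / θ) * nsq τ - nsq (fun i j => Q i j + τ i j) =
          (∑ i, ∑ j, (θ * Q i j - τ i j) ^ 2) / θ := by
        simp only [nsq, Fin.sum_univ_three]
        field_simp
        ring
      have h2 : 0 ≤ (∑ i, ∑ j, (θ * Q i j - τ i j) ^ 2) / θ := by positivity
      linarith
    have e8 : nsq (σ x) / (2 * μ) ≤ (1 + θ) * (2 * μ * dsq E) + (1 + 1 / θ) / (2 * μ) * nsq τ := by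
      rw [div_le_iff₀ (by positivity)]
      rw [e3] at e7
      have h1 : ((1 + θ) * (2 * μ * dsq E) + (1 + 1 / θ) / (2 * μ) * nsq τ) * (2 * μ) =
          (1 + θ) * (4 * μ ^ 2 * dsq E) + (1 + 1 / θ) * nsq τ := by
        field_simp
        ring
      rw [h1]; exact e7
    have e9 : tr3 (σ x) ^ 2 * k / 9 ≤ k / 3 * nsq τ := by
      rw [e4]
      have := mul_le_mul_of_nonneg_right e5 hk0
      linarith
    have e10 : θ * (2 * μ * dsq E) ≤ θ * (2 * μ) * nsq E := by
      have := mul_le_mul_of_nonneg_left (dsq_le E) (by positivity : (0:ℝ) ≤ θ * (2 * μ))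
      linarith
    have hDx : D x = nsq τ := rfl
    rw [e1, e2, hDx]
    have e11 : 1 / θ * nsq τ = nsq τ / θ := by ring
    nlinarith [e6, e8, e9, e10, e11]
  have hcE : Continuous fun x => 2 * ip (σ x) E - nsq (σ x) / (2 * μ) - tr3 (σ x) ^ 2 * k / 9 := by
    have h1 : Continuous fun x => ip (σ x) E := by
      unfold ip
      exact continuous_finsetSum _ fun i _ => continuous_finsetSum _ fun j _ => (hσc i j).mul continuous_const
    exact ((continuous_const.mul h1).sub (cn.div_const _)).sub (((ct.pow 2).mul continuous_const).div_const _)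
  have hmono : ∫ x in cell b, (2 * μ * dsq E - θ * (1 + 2 * μ) * nsq E -
      (1 / θ + (1 + 1 / θ) / (2 * μ) + k / 3) * D x) ≤
      ∫ x in cell b, (2 * ip (σ x) E - nsq (σ x) / (2 * μ) - tr3 (σ x) ^ 2 * k / 9) :=
    setIntegral_mono (μ := volume) (s := cell b)
      (cont_int b (continuous_const.sub (continuous_const.mul hDc))) (cont_int b hcE) hpt
  refine le_trans ?_ hmono
  have g1 : IntegrableOn (fun _ : R3 => 2 * μ * dsq E - θ * (1 + 2 * μ) * nsq E) (cell b) :=
    cont_int b continuous_const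
  have g2 : IntegrableOn (fun x : R3 => (1 / θ + (1 + 1 / θ) / (2 * μ) + k / 3) * D x) (cell b) :=
    cont_int b (continuous_const.mul hDc)
  have h6 : ∫ x in cell b, (2 * μ * dsq E - θ * (1 + 2 * μ) * nsq E -
      (1 / θ + (1 + 1 / θ) / (2 * μ) + k / 3) * D x) =
      volume.real (cell b) • (2 * μ * dsq E - θ * (1 + 2 * μ) * nsq E) -
        (1 / θ + (1 + 1 / θ) / (2 * μ) + k / 3) * ∫ x in cell b, D x := by
    rw [integral_sub g1 g2, setIntegral_const, integral_const_mul]
  rw [h6, smul_eq_mul]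
  have hVr : volume.real (cell b) = V := rfl
  rw [hVr]
  have h7 : (1 / θ + (1 + 1 / θ) / (2 * μ) + k / 3) * ∫ x in cell b, D x ≤
      (1 / θ + (1 + 1 / θ) / (2 * μ) + k / 3) * (ε₂ * nsq Q * V) :=
    mul_le_mul_of_nonneg_left hσE (by positivity)
  have h8 : nsq Q ≤ 4 * μ ^ 2 * nsq E := by
    have e3 : nsq Q = 4 * μ ^ 2 * dsq E := by
      rw [← nsq_dev]
      simp only [hQ, nsq, Fin.sum_univ_three]
      ring
    rw [e3]
    exact mul_le_mul_of_nonneg_left (dsq_le E) (by positivity)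
  have h9 : (1 / θ + (1 + 1 / θ) / (2 * μ) + k / 3) * (ε₂ * nsq Q * V) ≤
      (1 / θ + (1 + 1 / θ) / (2 * μ) + k / 3) * (ε₂ * (4 * μ ^ 2 * nsq E) * V) := by
    gcongr
  nlinarith [h7, h9]

end Porous3
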