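import Pool.Agent.Porous3.G3
open MeasureTheory Set
open scoped ContDiff ENNReal
noncomputable section
namespace Porous3

/-- Frobenius inner product -/
def ip (p q : Fin 3 → Fin 3 → ℝ) : ℝ := ∑ i, ∑ j, p i j * q i j

/-- deviatoric part -/
def dev (p : Fin 3 → Fin 3 → ℝ) : Fin 3 → Fin 3 → ℝ := fun i j => p i j - tr3 p / 3 * dlt i j

lemma nsq_nonneg (p : Fin 3 → Fin 3 → ℝ) : 0 ≤ nsq p :=
  Finset.sum_nonneg fun _ _ => Finset.sum_nonneg fun _ _ => sq_nonneg _

lemma nsq_dev (p : Fin 3 → Fin 3 → ℝ) : nsq (dev p) = dsq p := by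
  simp only [nsq, dsq, dev, tr3, dlt, Fin.sum_univ_three]
  simp
  ring

lemma dsq_nonneg (p : Fin 3 → Fin 3 → ℝ) : 0 ≤ dsq p := by
  rw [← nsq_dev]; exact nsq_nonneg _

lemma dsq_le (p : Fin 3 → Fin 3 → ℝ) : dsq p ≤ nsq p := by
  unfold dsq
  have := sq_nonneg (tr3 p)
  linarith

lemma nsq_eq (p : Fin 3 → Fin 3 → ℝ) : nsq p = p 0 0 ^ 2 + p 0 1 ^ 2 + p 0 2 ^ 2 + (p 1 0 ^ 2 + p 1 1 ^ 2 + p 1 2 ^ 2) +
    (p 2 0 ^ 2 + p 2 1 ^ 2 + p 2 2 ^ 2) := by
  simp only [nsq, Fin.sum_univ_three]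

/-- integrals over the cell of continuous functions -/
lemma cont_int (b : Module.Basis (Fin 3) ℝ R3) {E : Type*} [NormedAddCommGroup E] {f : R3 → E} (hf : Continuous f) :
    IntegrableOn f (cell b) := by
  have hcb : Bornology.IsBounded (cell b) := ZSpan.fundamentalDomain_isBounded b
  have hKc : IsCompact (closure (cell b)) :=
    Metric.isCompact_of_isClosed_isBounded isClosed_closure hcb.closure
  exact (hf.continuousOn.integrableOn_compact hKc).mono_set subset_closure

lemma cell_vol_pos (b : Module.Basis (Fin 3) ℝ R3) : 0 < (volume (cell b)).toReal :=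
  ENNReal.toReal_pos (ZSpan.measure_fundamentalDomain_ne_zero b)
    (ZSpan.fundamentalDomain_isBounded b).measure_lt_top.ne

lemma cell_vol_top (b : Module.Basis (Fin 3) ℝ R3) : volume (cell b) ≠ ⊤ :=
  (ZSpan.fundamentalDomain_isBounded b).measure_lt_top.ne

lemma strain_cont (E : Fin 3 → Fin 3 → ℝ) {u : R3 → R3} (hu : ContDiff ℝ ∞ u) (i j : Fin 3) :
    Continuous fun x => strain E (fun j x => fderiv ℝ u x (e j)) x i j := by
  have hcd : ∀ j, Continuous (fun x => fderiv ℝ u x (e j)) := fun j =>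
    (hu.continuous_fderiv (by simp)).clm_apply continuous_const
  unfold strain
  have h1 : Continuous fun x => fderiv ℝ u x (e j) i := (continuous_apply i).comp (hcd j)
  have h2 : Continuous fun x => fderiv ℝ u x (e i) j := (continuous_apply j).comp (hcd i)
  exact continuous_const.add ((h1.add h2).div_const 2)

lemma nsq_cont {p : R3 → Fin 3 → Fin 3 → ℝ} (h : ∀ i j, Continuous fun x => p x i j) :
    Continuous fun x => nsq (p x) := by
  unfold nsq
  exact continuous_finsetSum _ fun i _ => continuous_finsetSum _ fun j _ => (h i j).pow 2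

/-- upper bound from the kinematic certificate -/
theorem upper {b : Module.Basis (Fin 3) ℝ R3} {Ω : Set R3} (hΩm : MeasurableSet Ω) {ε₁ : ℝ}
    (hK : Kin b Ω ε₁) (κ : ℝ≥0∞) (μ : ℝ) (hμ : 0 < μ) (θ : ℝ) (hθ : 0 < θ) (E : Fin 3 → Fin 3 → ℝ) :
    effE b Ω κ μ E ≤
      ENNReal.ofReal (2 * μ * ((1 + θ) * dsq E + (1 + 1 / θ) * (tr3 E / 3) ^ 2 * ε₁)) := by
  obtain ⟨u, hu, hup, htr, hE⟩ := hK
  set t : ℝ := tr3 E / 3 with ht
  set v : R3 → R3 := fun x => t • u x with hv
  have hvs : ContDiff ℝ ∞ v := hu.const_smul t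
  have hvp : Per b v := by
    intro i x
    simp only [hv]
    rw [hup i x]
  have hfd : ∀ x h, fderiv ℝ v x h = t • fderiv ℝ u x h := by
    intro x h
    have h1 : HasFDerivAt u (fderiv ℝ u x) x := ((hu.differentiable (by simp)) x).hasFDerivAt
    have h2 : HasFDerivAt v (t • fderiv ℝ u x) x := h1.const_smul t
    rw [h2.fderiv]
    rfl
  have hH : IsH1Per b v (fun j x => fderiv ℝ v x (e j)) := isH1Per_of_contDiff b v hvs hvp
  set S : R3 → Fin 3 → Fin 3 → ℝ := strain dlt (fun j x => fderiv ℝ u x (e j)) with hS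
  have hpS : ∀ x, strain E (fun j x => fderiv ℝ v x (e j)) x = fun i j => dev E i j + t * S x i j := by
    intro x
    funext i j
    simp only [strain, hS, dev, hfd, Pi.smul_apply, smul_eq_mul]
    rw [← ht]
    ring
  have hcm : MeasurableSet (cell b) := ZSpan.fundamentalDomain_measurableSet b
  have hV := cell_vol_pos b
  set V := (volume (cell b)).toReal with hVdef
  have hSc : Continuous fun x => nsq (S x) := nsq_cont fun i j => strain_cont dlt hu i j
  set F : R3 → ℝ := fun x => 2 * μ * ((1 + θ) * dsq E) + 2 * μ * (1 + 1 / θ) * t ^ 2 * nsq (S x) with hF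
  have hFc : Continuous F := continuous_const.add (continuous_const.mul hSc)
  have hF0 : ∀ x, 0 ≤ F x := by
    intro x
    have h1 := dsq_nonneg E
    have h2 := nsq_nonneg (S x)
    simp only [hF]
    positivity
  have hpt : ∀ x ∈ Ω ∩ cell b, W κ μ (strain E (fun j x => fderiv ℝ v x (e j)) x) ≤ ENNReal.ofReal (F x) := by
    intro x hx
    have htrS : tr3 (S x) = 0 := by
      have h1 := htr x hx.1
      simp only [hS, tr3, strain, dlt, Fin.sum_univ_three] at h1 ⊢
      simp only [if_true]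
      linarith
    have htrd : tr3 (dev E) = 0 := by
      simp only [dev, dlt, tr3, Fin.sum_univ_three]
      simp
      ring
    have htrp : tr3 (strain E (fun j x => fderiv ℝ v x (e j)) x) = 0 := by
      rw [hpS]
      simp only [tr3] at htrS htrd ⊢
      rw [Finset.sum_add_distrib, ← Finset.mul_sum, htrS, htrd]
      ring
    have hyoung : ∀ A B : ℝ, (A + t * B) ^ 2 ≤ (1 + θ) * A ^ 2 + (1 + 1 / θ) * t ^ 2 * B ^ 2 := by
      intro A B
      have h3 : (1 + θ) * A ^ 2 + (1 + 1 / θ) * t ^ 2 * B ^ 2 - (A + t * B) ^ 2 =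
          (θ * A - t * B) ^ 2 / θ := by
        field_simp; ring
      have h4 : 0 ≤ (θ * A - t * B) ^ 2 / θ := by positivity
      linarith
    have hn : nsq (strain E (fun j x => fderiv ℝ v x (e j)) x) ≤
        (1 + θ) * dsq E + (1 + 1 / θ) * t ^ 2 * nsq (S x) := by
      rw [hpS, ← nsq_dev]
      unfold nsq
      rw [Finset.mul_sum, Finset.mul_sum, ← Finset.sum_add_distrib]
      refine Finset.sum_le_sum fun i _ => ?_
      rw [Finset.mul_sum, Finset.mul_sum, ← Finset.sum_add_distrib]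
      exact Finset.sum_le_sum fun j _ => hyoung _ _
    unfold W
    rw [htrp]
    simp only [ne_eq, OfNat.ofNat_ne_zero, not_false_eq_true, zero_pow, ENNReal.ofReal_zero, mul_zero, zero_add]
    apply ENNReal.ofReal_le_ofReal
    have hd : dsq (strain E (fun j x => fderiv ℝ v x (e j)) x) =
        nsq (strain E (fun j x => fderiv ℝ v x (e j)) x) := by
      unfold dsq
      rw [htrp]; ring
    rw [hd]
    simp only [hF]
    nlinarith
  have h1 : effE b Ω κ μ E ≤ (∫⁻ x in Ω ∩ cell b, W κ μ (strain E (fun j x => fderiv ℝ v x (e j)) x)) /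
      volume (cell b) := by
    unfold effE
    exact iInf_le_of_le v (iInf_le_of_le _ (iInf_le_of_le hH le_rfl))
  refine h1.trans ?_
  have hmeas : MeasurableSet (Ω ∩ cell b) := hΩm.inter hcm
  have h2 : ∫⁻ x in Ω ∩ cell b, W κ μ (strain E (fun j x => fderiv ℝ v x (e j)) x) ≤
      ENNReal.ofReal (∫ x in Ω ∩ cell b, F x) := by
    rw [ofReal_integral_eq_lintegral_ofReal ((cont_int b hFc).mono_set inter_subset_right)
      (Filter.Eventually.of_forall hF0)]
    exact setLIntegral_mono' hmeas hpt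
  have g1 : IntegrableOn (fun _ : R3 => 2 * μ * ((1 + θ) * dsq E)) (Ω ∩ cell b) :=
    (cont_int b continuous_const).mono_set inter_subset_right
  have g2 : IntegrableOn (fun x : R3 => 2 * μ * (1 + 1 / θ) * t ^ 2 * nsq (S x)) (Ω ∩ cell b) :=
    (cont_int b (continuous_const.mul hSc)).mono_set inter_subset_right
  have h3 : ∫ x in Ω ∩ cell b, F x =
      volume.real (Ω ∩ cell b) • (2 * μ * ((1 + θ) * dsq E)) +
        2 * μ * (1 + 1 / θ) * t ^ 2 * ∫ x in Ω ∩ cell b, nsq (S x) := by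
    simp only [hF]
    rw [integral_add g1 g2, setIntegral_const, integral_const_mul]
  have h4 : volume.real (Ω ∩ cell b) ≤ V :=
    ENNReal.toReal_mono (cell_vol_top b) (measure_mono inter_subset_right)
  have h5 : ∫ x in Ω ∩ cell b, F x ≤ (2 * μ * ((1 + θ) * dsq E + (1 + 1 / θ) * t ^ 2 * ε₁)) * V := by
    rw [h3, smul_eq_mul]
    have hd := dsq_nonneg E
    have h6 : volume.real (Ω ∩ cell b) * (2 * μ * ((1 + θ) * dsq E)) ≤ V * (2 * μ * ((1 + θ) * dsq E)) :=
      mul_le_mul_of_nonneg_right h4 (by positivity)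
    have h7 : 2 * μ * (1 + 1 / θ) * t ^ 2 * (∫ x in Ω ∩ cell b, nsq (S x)) ≤
        2 * μ * (1 + 1 / θ) * t ^ 2 * (ε₁ * V) := mul_le_mul_of_nonneg_left hE (by positivity)
    linarith
  have hvV : volume (cell b) = ENNReal.ofReal V := (ENNReal.ofReal_toReal (cell_vol_top b)).symm
  rw [hvV]
  refine ENNReal.div_le_of_le_mul ?_
  refine h2.trans ((ENNReal.ofReal_le_ofReal h5).trans ?_)
  rw [ENNReal.ofReal_mul' hV.le]

end Porous3
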