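import Pool.Agent.Porous3.ZE

open MeasureTheory Set Filter Topology
open scoped ContDiff ENNReal
noncomputable section
namespace Porous3

/-- The pairs `(κ_*, μ_*)` of moduli of the isotropic tensors that are limits of the effective tensors of a sequence of
three-dimensional composites of the elastic phase `(κ, μ)` with void, all periodic for the lattice of the given basis `b`
(the standard basis gives the lattice `ℤ³`, i.e. the unit cell). -/
def LimModuli3 (b : Module.Basis (Fin 3) ℝ R3) (κ : ℝ≥0∞) (μ : ℝ) : Set (ℝ × ℝ) :=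
  {p | 0 ≤ p.1 ∧ 0 ≤ p.2 ∧ ∃ Ω : ℕ → Set R3, (∀ n, MeasurableSet (Ω n)) ∧
    (∀ (n : ℕ) (i : Fin 3) (x : R3), x + b i ∈ Ω n ↔ x ∈ Ω n) ∧
    ∀ E : Fin 3 → Fin 3 → ℝ, (∀ i j, E i j = E j i) →
      Tendsto (fun n => effE b (Ω n) κ μ E) atTop
        (𝓝 (ENNReal.ofReal (p.1 * tr3 E ^ 2 + 2 * p.2 * dsq E)))}

/-- Hill's bound for trace free average strains -/
theorem effE_le_dev (b : Module.Basis (Fin 3) ℝ R3) (Ω : Set R3) (κ : ℝ≥0∞) (μ : ℝ)
    (E : Fin 3 → Fin 3 → ℝ) (hE : tr3 E = 0) : effE b Ω κ μ E ≤ ENNReal.ofReal (2 * μ * dsq E) := by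
  have h0 : IsH1Per b (fun _ => 0) (fun _ _ => 0) := by
    have h := isH1Per_of_contDiff b (fun _ : R3 => (0 : R3)) contDiff_const (fun i x => rfl)
    simpa using h
  have key : effE b Ω κ μ E ≤
      (∫⁻ x in Ω ∩ cell b, W κ μ (strain E (fun _ _ => (0 : R3)) x)) / volume (cell b) := by
    unfold effE
    exact iInf_le_of_le (fun _ : R3 => (0 : R3)) (iInf_le_of_le (fun (_ : Fin 3) (_ : R3) => (0 : R3))
      (iInf_le_of_le h0 le_rfl))
  refine key.trans ?_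
  have hs : ∀ x, strain E (fun _ _ => (0 : R3)) x = E := by
    intro x
    funext i j
    simp [strain]
  have hW : W κ μ E = ENNReal.ofReal (2 * μ * dsq E) := by
    unfold W
    rw [hE]
    simp
  simp only [hs, hW]
  rw [lintegral_const, Measure.restrict_apply_univ]
  have hV0 : volume (cell b) ≠ 0 := ZSpan.measure_fundamentalDomain_ne_zero b
  have hVt : volume (cell b) ≠ ⊤ := cell_vol_top b
  rw [ENNReal.div_le_iff hV0 hVt]
  gcongr
  exact inter_subset_right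

/-- the shear test strain -/
def E0 : Fin 3 → Fin 3 → ℝ := fun i j => if i = j then (if i = 0 then 1 else if i = 1 then -1 else 0) else 0

lemma E0_tr : tr3 E0 = 0 := by
  simp [tr3, E0, Fin.sum_univ_three]

lemma E0_dsq : dsq E0 = 2 := by
  simp [dsq, nsq, E0, tr3, Fin.sum_univ_three]
  norm_num

lemma E0_symm (i j : Fin 3) : E0 i j = E0 j i := by
  unfold E0
  by_cases h : i = j
  · rw [h]
  · rw [if_neg h, if_neg (Ne.symm h)]

theorem LimModuli3_le {b : Module.Basis (Fin 3) ℝ R3} {κ : ℝ≥0∞} {μ : ℝ} (hμ : 0 < μ) {p : ℝ × ℝ}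
    (hp : p ∈ LimModuli3 b κ μ) : p.2 ≤ μ := by
  obtain ⟨h1, h2, Ω, hm, hper, he⟩ := hp
  have h3 := he E0 E0_symm
  have h4 : ∀ n, effE b (Ω n) κ μ E0 ≤ ENNReal.ofReal (2 * μ * dsq E0) :=
    fun n => effE_le_dev b (Ω n) κ μ E0 E0_tr
  have h5 := le_of_tendsto' h3 h4
  rw [E0_tr, E0_dsq, ENNReal.ofReal_le_ofReal_iff (by positivity)] at h5
  linarith

/-- the statement that has to be fed with the explicit certificates -/
def HasCert : Prop := ∀ ε : ℝ, 0 < ε → ∃ (b : Module.Basis (Fin 3) ℝ R3) (Ω : Set R3), MeasurableSet Ω ∧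
      (∀ (i : Fin 3) (x : R3), x + b i ∈ Ω ↔ x ∈ Ω) ∧ Kin b Ω ε ∧ Stat b Ω ε

theorem LimModuli3_mem (hcert : HasCert) (b : Module.Basis (Fin 3) ℝ R3) (κ : ℝ≥0∞) (hκ : κ ≠ 0) (μ : ℝ)
    (hμ : 0 < μ) : ((0 : ℝ), μ) ∈ LimModuli3 b κ μ := by
  have key := fun n : ℕ => ZT.main3 hcert b κ hκ μ hμ (1 / ((n : ℝ) + 1)) (by positivity)
  choose Ω hm hper he using key
  refine ⟨le_refl _, hμ.le, Ω, hm, hper, fun E hE => ?_⟩
  have h1 : Tendsto (fun n : ℕ => (effE b (Ω n) κ μ E).toReal) atTop (𝓝 (2 * μ * dsq E)) := by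
    rw [tendsto_iff_dist_tendsto_zero]
    have h2 : Tendsto (fun n : ℕ => 1 / ((n : ℝ) + 1) * nsq E) atTop (𝓝 0) := by
      have := tendsto_one_div_add_atTop_nhds_zero_nat (𝕜 := ℝ)
      simpa using this.mul_const (nsq E)
    refine squeeze_zero (fun n => dist_nonneg) (fun n => ?_) h2
    rw [Real.dist_eq]
    exact (he n E hE).2
  have h3 := ENNReal.tendsto_ofReal h1
  have h4 : (0 : ℝ) * tr3 E ^ 2 + 2 * μ * dsq E = 2 * μ * dsq E := by ring
  show Tendsto _ _ (𝓝 (ENNReal.ofReal ((0 : ℝ) * tr3 E ^ 2 + 2 * μ * dsq E)))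
  rw [h4]
  refine h3.congr (fun n => ?_)
  exact ENNReal.ofReal_toReal (he n E hE).1

theorem LimModuli3_isLUB (hcert : HasCert) (b : Module.Basis (Fin 3) ℝ R3) (κ : ℝ≥0∞) (hκ : κ ≠ 0) (μ : ℝ)
    (hμ : 0 < μ) (c : ℝ) (hc : 0 < c) :
    IsLUB ((fun p : ℝ × ℝ => p.2 - c * p.1) '' LimModuli3 b κ μ) μ := by
  constructor
  · rintro v ⟨p, hp, rfl⟩
    have h1 := LimModuli3_le hμ hp
    have h2 : 0 ≤ c * p.1 := mul_nonneg hc.le hp.1
    show p.2 - c * p.1 ≤ μ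
    linarith
  · intro v hv
    have := hv ⟨((0 : ℝ), μ), LimModuli3_mem hcert b κ hκ μ hμ, rfl⟩
    simpa using this

end Porous3
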