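import Pool.Agent.Porous3.Base
open MeasureTheory Set
open scoped ContDiff ENNReal
noncomputable section
namespace Porous3



namespace ZT

theorem per_span {α : Type*} {b : Module.Basis (Fin 3) ℝ R3} {f : R3 → α} (hf : Per b f) :
    ∀ g ∈ Submodule.span ℤ (Set.range b), ∀ x, f (g + x) = f x := by
  let H : AddSubgroup R3 :=
    { carrier := {g | ∀ x, f (g + x) = f x}
      zero_mem' := fun x => by rw [zero_add]
      add_mem' := fun {g h} hg hh x => by rw [add_assoc, hg, hh]
      neg_mem' := fun {g} hg x => by rw [← hg (-g + x), add_neg_cancel_left] }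
  have hle : Submodule.span ℤ (Set.range b) ≤ AddSubgroup.toIntSubmodule H := by
    rw [Submodule.span_le]
    rintro _ ⟨i, rfl⟩
    intro x
    show f (b i + x) = f x
    rw [add_comm]
    exact hf i x
  intro g hg
  exact hle hg

instance instVAIz (b : Module.Basis (Fin 3) ℝ R3) :
    VAddInvariantMeasure (Submodule.span ℤ (Set.range b)) R3 (volume : Measure R3) :=
  ⟨fun c s _ => measure_preimage_add volume (c : R3) s⟩

/-- number of translates of `x` by lattice points in the cell of a sublattice -/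
def cnt (b b' : Module.Basis (Fin 3) ℝ R3) (x : R3) : ℝ≥0∞ :=
  ∑' v : Submodule.span ℤ (Set.range b), (cell b').indicator (fun _ => (1 : ℝ≥0∞)) (x + v)

lemma cnt_const (b b' : Module.Basis (Fin 3) ℝ R3)
    (hsub : ∀ i, b' i ∈ Submodule.span ℤ (Set.range b)) (x y : R3) : cnt b b' x = cnt b b' y := by
  have hle : Submodule.span ℤ (Set.range b') ≤ Submodule.span ℤ (Set.range b) := by
    rw [Submodule.span_le]
    rintro _ ⟨i, rfl⟩
    exact hsub i
  have key : ∀ x y : R3, ∀ v : R3, v ∈ Submodule.span ℤ (Set.range b) → x + v ∈ cell b' →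
      (ZSpan.fract b' (y + v) - y ∈ Submodule.span ℤ (Set.range b)) ∧
      y + (ZSpan.fract b' (y + v) - y) ∈ cell b' ∧
      ZSpan.fract b' (x + (ZSpan.fract b' (y + v) - y)) - x = v := by
    intro x y v hv hx
    have hfl : ((ZSpan.floor b' (y + v) : Submodule.span ℤ (Set.range b')) : R3) ∈
        Submodule.span ℤ (Set.range b') := (ZSpan.floor b' (y + v)).2
    have e1 : ZSpan.fract b' (y + v) - y = v - (ZSpan.floor b' (y + v) : R3) := by
      rw [ZSpan.fract_apply]; ring
    refine ⟨?_, ?_, ?_⟩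
    · rw [e1]
      exact Submodule.sub_mem _ hv (hle hfl)
    · have : y + (ZSpan.fract b' (y + v) - y) = ZSpan.fract b' (y + v) := by ring
      rw [this]
      exact ZSpan.fract_mem_fundamentalDomain b' _
    · rw [e1]
      have e2 : x + (v - (ZSpan.floor b' (y + v) : R3)) =
          -(ZSpan.floor b' (y + v) : R3) + (x + v) := by ring
      rw [e2, ZSpan.fract_zSpan_add b' _ (Submodule.neg_mem _ hfl), (ZSpan.fract_eq_self).2 hx]
      ring
  let S : R3 → Set (Submodule.span ℤ (Set.range b)) := fun x => {v | x + (v : R3) ∈ cell b'}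
  have hS : ∀ x, cnt b b' x = ∑' v : S x, (1 : ℝ≥0∞) := by
    intro x
    unfold cnt
    rw [tsum_subtype (S x) (fun _ => (1 : ℝ≥0∞))]
    refine tsum_congr fun v => ?_
    by_cases h : x + (v : R3) ∈ cell b'
    · rw [Set.indicator_of_mem h, Set.indicator_of_mem (show v ∈ S x from h)]
    · rw [Set.indicator_of_notMem h, Set.indicator_of_notMem (show v ∉ S x from h)]
  rw [hS, hS]
  let e : S x ≃ S y :=
    { toFun := fun v => ⟨⟨ZSpan.fract b' (y + v.1.1) - y, (key x y v.1.1 v.1.2 v.2).1⟩,
        (key x y v.1.1 v.1.2 v.2).2.1⟩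
      invFun := fun v => ⟨⟨ZSpan.fract b' (x + v.1.1) - x, (key y x v.1.1 v.1.2 v.2).1⟩,
        (key y x v.1.1 v.1.2 v.2).2.1⟩
      left_inv := fun v => Subtype.ext (Subtype.ext (key x y v.1.1 v.1.2 v.2).2.2)
      right_inv := fun v => Subtype.ext (Subtype.ext (key y x v.1.1 v.1.2 v.2).2.2) }
  exact Equiv.tsum_eq e (fun _ => (1 : ℝ≥0∞))

open scoped Pointwise in
lemma lintegral_cell_sub (b b' : Module.Basis (Fin 3) ℝ R3)
    (hsub : ∀ i, b' i ∈ Submodule.span ℤ (Set.range b)) (f : R3 → ℝ≥0∞) (hf : Per b f)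
    (hfm : Measurable f) :
    ∫⁻ x in cell b', f x = cnt b b' 0 * ∫⁻ x in cell b, f x := by
  have hfd := ZSpan.isAddFundamentalDomain b (volume : Measure R3)
  have hcm : MeasurableSet (cell b') := ZSpan.fundamentalDomain_measurableSet b'
  rw [hfd.setLIntegral_eq_tsum' f (cell b')]
  have h1 : ∀ g : Submodule.span ℤ (Set.range b),
      ∫⁻ x in (g +ᵥ cell b') ∩ ZSpan.fundamentalDomain b, f (-g +ᵥ x) =
      ∫⁻ x in cell b, (cell b').indicator (fun _ => (1 : ℝ≥0∞)) (x + ((-g : Submodule.span ℤ (Set.range b)) : R3)) * f x := by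
    intro g
    have hm : MeasurableSet (g +ᵥ cell b') := hcm.const_vadd g
    rw [← Measure.restrict_restrict hm, ← lintegral_indicator hm]
    refine lintegral_congr fun x => ?_
    have hiff : x ∈ g +ᵥ cell b' ↔ x + ((-g : Submodule.span ℤ (Set.range b)) : R3) ∈ cell b' := by
      rw [Set.mem_vadd_set_iff_neg_vadd_mem]
      show ((-g : Submodule.span ℤ (Set.range b)) : R3) + x ∈ cell b' ↔ _
      rw [add_comm]
    by_cases hx : x ∈ g +ᵥ cell b'
    · rw [Set.indicator_of_mem hx, Set.indicator_of_mem (hiff.1 hx), one_mul]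
      exact per_span hf _ (-g).2 x
    · rw [Set.indicator_of_notMem hx, Set.indicator_of_notMem (fun h => hx (hiff.2 h)), zero_mul]
  rw [tsum_congr h1, ← lintegral_tsum]
  · have h2 : ∀ x, ∑' g : Submodule.span ℤ (Set.range b),
        (cell b').indicator (fun _ => (1 : ℝ≥0∞)) (x + ((-g : Submodule.span ℤ (Set.range b)) : R3)) * f x =
        cnt b b' 0 * f x := by
      intro x
      rw [ENNReal.tsum_mul_right, ← cnt_const b b' hsub x 0]
      congr 1
      unfold cnt
      exact (Equiv.neg (Submodule.span ℤ (Set.range b))).tsum_eq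
        (fun v => (cell b').indicator (fun _ => (1 : ℝ≥0∞)) (x + (v : R3)))
    rw [lintegral_congr h2, lintegral_const_mul _ hfm]
  · intro g
    refine (Measurable.mul ?_ hfm).aemeasurable
    exact (measurable_const.indicator hcm).comp (measurable_id.add_const _)

/-- averages over the cells of a lattice and of a sublattice agree -/
theorem lavg_sub (b b' : Module.Basis (Fin 3) ℝ R3)
    (hsub : ∀ i, b' i ∈ Submodule.span ℤ (Set.range b)) (f : R3 → ℝ≥0∞) (hf : Per b f)
    (hfm : Measurable f) :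
    (∫⁻ x in cell b', f x) / volume (cell b') = (∫⁻ x in cell b, f x) / volume (cell b) := by
  have h1 := lintegral_cell_sub b b' hsub f hf hfm
  have h2 := lintegral_cell_sub b b' hsub (fun _ => 1) (fun _ _ => rfl) measurable_const
  simp only [lintegral_const, Measure.restrict_apply_univ, one_mul] at h2
  have hv0 : volume (cell b) ≠ 0 := ZSpan.measure_fundamentalDomain_ne_zero b
  have hvt : volume (cell b) ≠ ⊤ := (ZSpan.fundamentalDomain_isBounded b).measure_lt_top.ne
  have hv0' : volume (cell b') ≠ 0 := ZSpan.measure_fundamentalDomain_ne_zero b'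
  have hvt' : volume (cell b') ≠ ⊤ := (ZSpan.fundamentalDomain_isBounded b').measure_lt_top.ne
  have hc0 : cnt b b' 0 ≠ 0 := by
    intro h
    rw [h, zero_mul] at h2
    exact hv0' h2
  have hct : cnt b b' 0 ≠ ⊤ := by
    intro h
    rw [h, ENNReal.top_mul hv0] at h2
    exact hvt' h2
  rw [h1, h2]
  exact ENNReal.mul_div_mul_left _ _ hc0 hct

end ZT
end Porous3
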