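import Pool.Agent.Porous3.ZA
open MeasureTheory Set
open scoped ContDiff ENNReal
noncomputable section
namespace Porous3
namespace ZT

/-- linear change of variables -/
lemma lintegral_map (b : Module.Basis (Fin 3) ℝ R3) (T : R3 ≃L[ℝ] R3) (f : R3 → ℝ≥0∞) (hfm : Measurable f) :
    ∫⁻ x in cell (b.map T.symm.toLinearEquiv), f (T x) =
      ENNReal.ofReal |(LinearMap.det (T.toLinearEquiv : R3 →ₗ[ℝ] R3))⁻¹| * ∫⁻ x in cell b, f x := by
  have hcell : cell (b.map T.symm.toLinearEquiv) = T ⁻¹' (cell b) := by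
    unfold cell
    rw [← ZSpan.map_fundamentalDomain]
    ext x
    constructor
    · rintro ⟨y, hy, rfl⟩
      simpa using hy
    · intro hx
      exact ⟨T x, hx, by simp⟩
  have hcm : MeasurableSet (cell b) := ZSpan.fundamentalDomain_measurableSet b
  have hTm : Measurable T := T.continuous.measurable
  rw [hcell, ← setLIntegral_map hcm hfm hTm]
  have hdet : LinearMap.det (T.toLinearEquiv : R3 →ₗ[ℝ] R3) ≠ 0 :=
    (LinearEquiv.isUnit_det' T.toLinearEquiv).ne_zero
  have h := Measure.map_linearMap_addHaar_eq_smul_addHaar (volume : Measure R3) hdet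
  have h' : Measure.map T (volume : Measure R3) =
      ENNReal.ofReal |(LinearMap.det (T.toLinearEquiv : R3 →ₗ[ℝ] R3))⁻¹| • volume := h
  rw [h', Measure.restrict_smul, lintegral_smul_measure, smul_eq_mul]

lemma mem_span_map (b b' : Module.Basis (Fin 3) ℝ R3) (T : R3 ≃L[ℝ] R3)
    (hT : ∀ i, T (b' i) ∈ Submodule.span ℤ (Set.range b)) (i : Fin 3) :
    b' i ∈ Submodule.span ℤ (Set.range (b.map T.symm.toLinearEquiv)) := by
  have h1 : ∀ y ∈ Submodule.span ℤ (Set.range b),
      T.symm y ∈ Submodule.span ℤ (Set.range (b.map T.symm.toLinearEquiv)) := by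
    intro y hy
    induction hy using Submodule.span_induction with
    | mem y hy =>
      obtain ⟨j, rfl⟩ := hy
      refine Submodule.subset_span ⟨j, ?_⟩
      simp
    | zero => rw [map_zero]; exact Submodule.zero_mem _
    | add y z _ _ hy hz => rw [map_add]; exact Submodule.add_mem _ hy hz
    | smul n y _ hy => rw [map_zsmul]; exact Submodule.smul_mem _ n hy
  have h2 := h1 _ (hT i)
  rwa [ContinuousLinearEquiv.symm_apply_apply] at h2

/-- cell averages under a linear map that sends the coarse lattice into the fine lattice -/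
theorem lavg_map (b b' : Module.Basis (Fin 3) ℝ R3) (T : R3 ≃L[ℝ] R3)
    (hT : ∀ i, T (b' i) ∈ Submodule.span ℤ (Set.range b)) (f : R3 → ℝ≥0∞) (hf : Per b f)
    (hfm : Measurable f) :
    (∫⁻ x in cell b', f (T x)) / volume (cell b') = (∫⁻ x in cell b, f x) / volume (cell b) := by
  have hTm : Measurable T := T.continuous.measurable
  have hper : Per (b.map T.symm.toLinearEquiv) (fun x => f (T x)) := by
    intro i x
    show f (T (x + (b.map T.symm.toLinearEquiv) i)) = f (T x)
    have : (b.map T.symm.toLinearEquiv) i = T.symm (b i) := by simp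
    rw [this, map_add, ContinuousLinearEquiv.apply_symm_apply]
    exact hf i (T x)
  rw [lavg_sub (b.map T.symm.toLinearEquiv) b' (mem_span_map b b' T hT) _ hper (hfm.comp hTm),
    lintegral_map b T f hfm]
  have h1 := lintegral_map b T (fun _ => 1) measurable_const
  simp only [lintegral_const, Measure.restrict_apply_univ, one_mul] at h1
  rw [h1]
  have hdet : LinearMap.det (T.toLinearEquiv : R3 →ₗ[ℝ] R3) ≠ 0 :=
    (LinearEquiv.isUnit_det' T.toLinearEquiv).ne_zero
  refine ENNReal.mul_div_mul_left _ _ ?_ ENNReal.ofReal_ne_top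
  rw [Ne, ENNReal.ofReal_eq_zero, not_le]
  positivity

/-- real version -/
theorem avg_map (b b' : Module.Basis (Fin 3) ℝ R3) (T : R3 ≃L[ℝ] R3)
    (hT : ∀ i, T (b' i) ∈ Submodule.span ℤ (Set.range b)) (f : R3 → ℝ) (hf : Per b f)
    (hfm : Measurable f) (h0 : ∀ x, 0 ≤ f x) :
    (∫ x in cell b', f (T x)) / (volume (cell b')).toReal =
      (∫ x in cell b, f x) / (volume (cell b)).toReal := by
  have hTm : Measurable T := T.continuous.measurable
  rw [integral_eq_lintegral_of_nonneg_ae (Filter.Eventually.of_forall fun x => h0 (T x))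
    (hfm.comp hTm).aestronglyMeasurable,
    integral_eq_lintegral_of_nonneg_ae (Filter.Eventually.of_forall fun x => h0 x)
    hfm.aestronglyMeasurable, ← ENNReal.toReal_div, ← ENNReal.toReal_div]
  congr 1
  exact lavg_map b b' T hT (fun x => ENNReal.ofReal (f x)) (fun i x => congrArg ENNReal.ofReal (hf i x))
    (ENNReal.measurable_ofReal.comp hfm)

/-- a linear map close to a multiple of the identity that sends the lattice of `b'` into the lattice of `b` -/
theorem exists_T (b b' : Module.Basis (Fin 3) ℝ R3) (δ : ℝ) (hδ : 0 < δ) (hδ1 : δ < 1) :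
    ∃ (T : R3 ≃L[ℝ] R3) (N : ℝ), 0 < N ∧ (∀ i, T (b' i) ∈ Submodule.span ℤ (Set.range b)) ∧
      ∀ x, ‖T x - N • x‖ ≤ δ * N * ‖x‖ := by
  -- coordinates are bounded
  let L : R3 →L[ℝ] (Fin 3 → ℝ) := LinearMap.toContinuousLinearMap (b'.equivFun : R3 →ₗ[ℝ] (Fin 3 → ℝ))
  set C := ‖L‖ with hC
  have hL : ∀ x i, |b'.repr x i| ≤ C * ‖x‖ := by
    intro x i
    have h1 : ‖L x i‖ ≤ ‖L x‖ := norm_le_pi_norm (L x) i
    have h2 := L.le_opNorm x
    have h3 : L x i = b'.repr x i := by
      simp [L, Module.Basis.equivFun_apply]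
    rw [← h3, ← Real.norm_eq_abs]
    exact h1.trans h2
  set R : ℝ := ∑ i, ‖b i‖ with hR
  have hC0 : 0 ≤ C := norm_nonneg _
  have hR0 : 0 ≤ R := Finset.sum_nonneg fun i _ => norm_nonneg _
  obtain ⟨n, hn⟩ := exists_nat_gt ((3 * C * R) / δ)
  have hn0 : (0 : ℝ) < n := lt_of_le_of_lt (by positivity) hn
  have hn' : 3 * C * R ≤ δ * n := by
    rw [div_lt_iff₀ hδ] at hn
    linarith
  let T0 : R3 →ₗ[ℝ] R3 := b'.constr ℝ (fun i => ((ZSpan.floor b ((n : ℝ) • b' i) : Submodule.span ℤ (Set.range b)) : R3))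
  have hT0 : ∀ i, T0 (b' i) = ((ZSpan.floor b ((n : ℝ) • b' i) : Submodule.span ℤ (Set.range b)) : R3) := by
    intro i
    simp only [T0]
    rw [Module.Basis.constr_basis]
  have hE : ∀ x, ‖T0 x - (n : ℝ) • x‖ ≤ δ * n * ‖x‖ := by
    intro x
    have hx : x = ∑ i, (b'.repr x i) • b' i := (b'.sum_repr x).symm
    have h1 : T0 x - (n : ℝ) • x = ∑ i, (b'.repr x i) • (T0 (b' i) - (n : ℝ) • b' i) := by
      conv_lhs => rw [hx]
      rw [map_sum, Finset.smul_sum, ← Finset.sum_sub_distrib]
      refine Finset.sum_congr rfl fun i _ => ?_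
      rw [map_smul, smul_sub, smul_comm]
    have h2 : ∀ i, ‖T0 (b' i) - (n : ℝ) • b' i‖ ≤ R := by
      intro i
      rw [hT0, norm_sub_rev]
      have h := ZSpan.norm_fract_le b ((n : ℝ) • b' i)
      rwa [ZSpan.fract_apply] at h
    rw [h1]
    calc ‖∑ i, (b'.repr x i) • (T0 (b' i) - (n : ℝ) • b' i)‖
        ≤ ∑ i, ‖(b'.repr x i) • (T0 (b' i) - (n : ℝ) • b' i)‖ := norm_sum_le _ _
      _ ≤ ∑ i : Fin 3, (C * ‖x‖) * R := by
          refine Finset.sum_le_sum fun i _ => ?_
          rw [norm_smul, Real.norm_eq_abs]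
          exact mul_le_mul (hL x i) (h2 i) (norm_nonneg _) (by positivity)
      _ = (3 * C * R) * ‖x‖ := by
          rw [Fin.sum_univ_three]; ring
      _ ≤ δ * n * ‖x‖ := mul_le_mul_of_nonneg_right hn' (norm_nonneg _)
  have hinj : Function.Injective T0 := by
    rw [← LinearMap.ker_eq_bot, LinearMap.ker_eq_bot']
    intro x hx
    have h := hE x
    rw [hx, zero_sub, norm_neg, norm_smul, Real.norm_natCast] at h
    by_contra hne
    have hpos : 0 < ‖x‖ := norm_pos_iff.2 hne
    nlinarith [mul_pos hn0 hpos]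
  refine ⟨(LinearEquiv.ofInjectiveEndo T0 hinj).toContinuousLinearEquiv, n, hn0, ?_, ?_⟩
  · intro i
    have : (LinearEquiv.ofInjectiveEndo T0 hinj).toContinuousLinearEquiv (b' i) = T0 (b' i) := rfl
    rw [this, hT0]
    exact Subtype.mem _
  · intro x
    exact hE x

end ZT
end Porous3
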