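import Pool.Agent.Porous3.ZB
import Pool.Agent.Porous3.GU
open MeasureTheory Set
open scoped ContDiff ENNReal
noncomputable section
namespace Porous3
namespace ZT

/-- trace of a real linear map of `ℝ³` -/
lemma trace_eq (f : R3 →ₗ[ℝ] R3) : LinearMap.trace ℝ R3 f = ∑ i, f (e i) i := by
  rw [LinearMap.trace_eq_matrix_trace ℝ (Pi.basisFun ℝ (Fin 3)) f]
  simp [Matrix.trace]

lemma trace_conj (A : R3 →L[ℝ] R3) (T : R3 ≃L[ℝ] R3) :
    ∑ i, T.symm (A (T (e i))) i = ∑ i, A (e i) i := by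
  have h1 := trace_eq (A : R3 →ₗ[ℝ] R3)
  have h2 := trace_eq ((T.symm.toLinearEquiv : R3 ≃ₗ[ℝ] R3).conj (A : R3 →ₗ[ℝ] R3))
  rw [LinearMap.trace_conj', h1] at h2
  simpa [LinearEquiv.conj_apply] using h2.symm

lemma symm_norm (T : R3 ≃L[ℝ] R3) (N δ : ℝ) (hN : 0 < N) (hδ1 : δ ≤ 1 / 2)
    (hT : ∀ x, ‖T x - N • x‖ ≤ δ * N * ‖x‖) (y : R3) : ‖T.symm y‖ ≤ 2 / N * ‖y‖ := by
  have h3 := hT (T.symm y)
  rw [ContinuousLinearEquiv.apply_symm_apply] at h3
  have h4 : ‖N • T.symm y‖ = N * ‖T.symm y‖ := by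
    rw [norm_smul, Real.norm_of_nonneg hN.le]
  have h5 : N * ‖T.symm y‖ ≤ ‖y‖ + δ * N * ‖T.symm y‖ := by
    rw [← h4]
    calc ‖N • T.symm y‖ = ‖y - (y - N • T.symm y)‖ := by congr 1; abel
      _ ≤ ‖y‖ + ‖y - N • T.symm y‖ := norm_sub_le _ _
      _ ≤ _ := by linarith
  have h6 : δ * N * ‖T.symm y‖ ≤ 1 / 2 * N * ‖T.symm y‖ := by gcongr
  rw [div_mul_eq_mul_div, le_div_iff₀ hN]
  nlinarith

/-- the conjugated map is close to the original map -/
lemma conj_close (A : R3 →L[ℝ] R3) (T : R3 ≃L[ℝ] R3) (N δ : ℝ) (hN : 0 < N) (hδ1 : δ ≤ 1 / 2)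
    (hδ : 0 < δ) (hT : ∀ x, ‖T x - N • x‖ ≤ δ * N * ‖x‖) (h : R3) :
    ‖T.symm (A (T h)) - A h‖ ≤ 4 * δ * ‖A‖ * ‖h‖ := by
  have h1 : T.symm (A (T h)) - A h = T.symm (A (T h) - T (A h)) := by
    rw [map_sub, ContinuousLinearEquiv.symm_apply_apply]
  have h3 : A (T h) - T (A h) = A (T h - N • h) - (T (A h) - N • A h) := by
    rw [map_sub, map_smul]
    abel
  have h4 : ‖A (T h) - T (A h)‖ ≤ 2 * δ * N * ‖A‖ * ‖h‖ := by
    rw [h3]
    have e1 : ‖A (T h - N • h)‖ ≤ ‖A‖ * (δ * N * ‖h‖) :=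
      (A.le_opNorm _).trans (mul_le_mul_of_nonneg_left (hT h) (norm_nonneg _))
    have e2 : ‖T (A h) - N • A h‖ ≤ δ * N * (‖A‖ * ‖h‖) :=
      (hT _).trans (mul_le_mul_of_nonneg_left (A.le_opNorm h) (by positivity))
    calc ‖A (T h - N • h) - (T (A h) - N • A h)‖
        ≤ ‖A (T h - N • h)‖ + ‖T (A h) - N • A h‖ := norm_sub_le _ _
      _ ≤ ‖A‖ * (δ * N * ‖h‖) + δ * N * (‖A‖ * ‖h‖) := add_le_add e1 e2
      _ = _ := by ring
  rw [h1]
  calc ‖T.symm (A (T h) - T (A h))‖ ≤ 2 / N * ‖A (T h) - T (A h)‖ := symm_norm T N δ hN hδ1 hT _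
    _ ≤ 2 / N * (2 * δ * N * ‖A‖ * ‖h‖) := by gcongr
    _ = 4 * δ * ‖A‖ * ‖h‖ := by field_simp; ring

/-- the period of the derivative -/
lemma per_fderiv {b : Module.Basis (Fin 3) ℝ R3} {F : Type*} [NormedAddCommGroup F] [NormedSpace ℝ F]
    {u : R3 → F} (hu : Per b u) : Per b (fderiv ℝ u) := by
  intro i x
  have h1 : (fun y => u (y + b i)) = u := funext fun y => hu i y
  have h2 := fderiv_comp_add_right (𝕜 := ℝ) (f := u) (x := x) (b i)
  rw [h1] at h2
  exact h2.symm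

lemma exists_bound {b : Module.Basis (Fin 3) ℝ R3} {F : Type*} [NormedAddCommGroup F] [NormedSpace ℝ F]
    {f : R3 → F} (hf : Continuous f) (hp : Per b f) : ∃ M : ℝ, 0 ≤ M ∧ ∀ x, ‖f x‖ ≤ M := by
  obtain ⟨R, hR⟩ := (ZSpan.fundamentalDomain_isBounded b).subset_closedBall (0 : R3)
  obtain ⟨M, hM⟩ := (isCompact_closedBall (0 : R3) R).exists_bound_of_continuousOn hf.continuousOn
  have h0 : (0 : R3) ∈ cell b := ZSpan.mem_fundamentalDomain b |>.2 (fun i => by simp)
  refine ⟨M, (norm_nonneg _).trans (hM 0 (hR h0)), fun x => ?_⟩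
  have h1 : f x = f (ZSpan.fract b x) := by
    have h2 := per_span hp (ZSpan.floor b x : R3) (Subtype.mem _) (ZSpan.fract b x)
    rw [← h2]
    congr 1
    rw [ZSpan.fract_apply]; abel
  rw [h1]
  exact hM _ (hR (ZSpan.fract_mem_fundamentalDomain b x))

lemma fderiv_conj (u : R3 → R3) (hu : ContDiff ℝ ∞ u) (T : R3 ≃L[ℝ] R3) (x h : R3) :
    fderiv ℝ (fun y => T.symm (u (T y))) x h = T.symm (fderiv ℝ u (T x) (T h)) := by
  have h1 : HasFDerivAt u (fderiv ℝ u (T x)) (T x) :=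
    ((hu.differentiable (by simp)) (T x)).hasFDerivAt
  have h2 := (T.symm.toContinuousLinearMap.hasFDerivAt (x := u (T x))).comp x
    (h1.comp x (T.toContinuousLinearMap.hasFDerivAt (x := x)))
  have h3 : HasFDerivAt (fun y => T.symm (u (T y)))
      ((T.symm : R3 →L[ℝ] R3).comp ((fderiv ℝ u (T x)).comp (T : R3 →L[ℝ] R3))) x := h2
  rw [h3.fderiv]
  rfl

lemma nsq_close {p q : Fin 3 → Fin 3 → ℝ} {K : ℝ} (h : ∀ i j, |p i j - q i j| ≤ K) :
    nsq p ≤ 2 * nsq q + 18 * K ^ 2 := by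
  have h1 : ∀ i j, p i j ^ 2 ≤ 2 * q i j ^ 2 + 2 * K ^ 2 := by
    intro i j
    have h2 := sq_le_sq' (abs_le.1 (h i j)).1 (abs_le.1 (h i j)).2
    nlinarith [sq_nonneg (p i j - 2 * q i j)]
  calc nsq p = ∑ i, ∑ j, p i j ^ 2 := rfl
    _ ≤ ∑ i, ∑ j, (2 * q i j ^ 2 + 2 * K ^ 2) :=
      Finset.sum_le_sum fun i _ => Finset.sum_le_sum fun j _ => h1 i j
    _ = 2 * nsq q + 18 * K ^ 2 := by
      unfold nsq
      simp only [Fin.sum_univ_three]
      ring

lemma norm_e (j : Fin 3) : ‖e j‖ = 1 := by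
  rw [Pi.norm_single, norm_one]

/-- transfer of the kinematic certificate -/
theorem Kin.transfer {b : Module.Basis (Fin 3) ℝ R3} {Ω : Set R3} (hΩm : MeasurableSet Ω)
    (hΩp : ∀ (i : Fin 3) (x : R3), x + b i ∈ Ω ↔ x ∈ Ω) {ε : ℝ} (hε : 0 < ε) (hK : Kin b Ω ε) :
    ∃ δ₀ : ℝ, 0 < δ₀ ∧ ∀ (b' : Module.Basis (Fin 3) ℝ R3) (T : R3 ≃L[ℝ] R3) (N δ : ℝ), 0 < N → 0 < δ → δ ≤ δ₀ →
      (∀ i, T (b' i) ∈ Submodule.span ℤ (Set.range b)) → (∀ x, ‖T x - N • x‖ ≤ δ * N * ‖x‖) →
      Kin b' (T ⁻¹' Ω) (3 * ε) := by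
  obtain ⟨u, hu, hup, htr, hE⟩ := hK
  have hcd : Continuous (fderiv ℝ u) := hu.continuous_fderiv (by simp)
  obtain ⟨M, hM0, hM⟩ := exists_bound (f := fun x => ContinuousLinearMap.id ℝ R3 + fderiv ℝ u x)
    (continuous_const.add hcd) (b := b) (fun i x => by
      show _ + fderiv ℝ u (x + b i) = _ + fderiv ℝ u x
      rw [per_fderiv hup i x])
  refine ⟨min (1 / 2) (ε / (288 * M ^ 2 + 288 + ε)), by positivity, ?_⟩
  intro b' T N δ hN hδ hδ0 hTb hT
  have hδ1 : δ ≤ 1 / 2 := hδ0.trans (min_le_left _ _)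
  have hδ2 : δ ≤ ε / (288 * M ^ 2 + 288 + ε) := hδ0.trans (min_le_right _ _)
  have hδ3 : 288 * δ ^ 2 * M ^ 2 ≤ ε := by
    rw [le_div_iff₀ (by positivity)] at hδ2
    have h1 : δ * (288 * M ^ 2) ≤ ε := by nlinarith [mul_pos hδ hε, sq_nonneg M]
    have h2 : δ * (δ * (288 * M ^ 2)) ≤ 1 * ε := by
      apply mul_le_mul (by linarith) h1 (by positivity) (by norm_num)
    linarith
  have hfd := fderiv_conj u hu T
  set u' : R3 → R3 := fun y => T.symm (u (T y)) with hu'
  have hTc : ContDiff ℝ ∞ (T : R3 → R3) := T.contDiff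
  have hTsc : ContDiff ℝ ∞ (T.symm : R3 → R3) := T.symm.contDiff
  have hu's : ContDiff ℝ ∞ u' := hTsc.comp (hu.comp hTc)
  -- the total gradient
  set A : R3 → R3 →L[ℝ] R3 := fun x => ContinuousLinearMap.id ℝ R3 + fderiv ℝ u x with hA
  have hAp : ∀ x h, A x h = h + fderiv ℝ u x h := fun x h => rfl
  have hA' : ∀ x h, h + fderiv ℝ u' x h = T.symm (A (T x) (T h)) := by
    intro x h
    rw [hfd, hAp, map_add, ContinuousLinearEquiv.symm_apply_apply]
  have hclose : ∀ x h, ‖(h + fderiv ℝ u' x h) - A (T x) h‖ ≤ 4 * δ * M * ‖h‖ := by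
    intro x h
    rw [hA']
    refine (conj_close (A (T x)) T N δ hN hδ1 hδ hT h).trans ?_
    have := hM (T x)
    gcongr
  have hper' : Per b' u' := by
    intro i x
    show T.symm (u (T (x + b' i))) = T.symm (u (T x))
    rw [map_add, add_comm, per_span hup _ (hTb i)]
  refine ⟨u', hu's, hper', ?_, ?_⟩
  · intro x hx
    have h1 := trace_conj (A (T x)) T
    have h2 := htr (T x) hx
    have h3 : ∑ i, (1 + fderiv ℝ u' x (e i) i) = ∑ i, T.symm (A (T x) (T (e i))) i := by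
      refine Finset.sum_congr rfl fun i _ => ?_
      rw [← hA' x (e i)]
      simp [e]
    have h4 : ∑ i, A (T x) (e i) i = ∑ i, (1 + fderiv ℝ u (T x) (e i) i) := by
      refine Finset.sum_congr rfl fun i _ => ?_
      rw [hAp]
      simp [e]
    rw [h3, h1, h4]
    exact h2
  · -- pointwise estimate
    set F : R3 → ℝ := fun x => nsq (strain dlt (fun j x => fderiv ℝ u x (e j)) x) with hF
    set F' : R3 → ℝ := fun x => nsq (strain dlt (fun j x => fderiv ℝ u' x (e j)) x) with hF'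
    have hFc : Continuous F :=
      nsq_cont fun i j => strain_cont dlt hu i j
    have hcd' : Continuous (fderiv ℝ u') := hu's.continuous_fderiv (by simp)
    have hFc' : Continuous F' :=
      nsq_cont fun i j => strain_cont dlt hu's i j
    have hF0 : ∀ x, 0 ≤ F x := fun x => by simp only [hF, nsq]; positivity
    have hpt : ∀ x, F' x ≤ 2 * F (T x) + ε := by
      intro x
      have a : ∀ j i, |fderiv ℝ u' x (e j) i - fderiv ℝ u (T x) (e j) i| ≤ 4 * δ * M := by
        intro j i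
        have a1 := hclose x (e j)
        rw [hAp, norm_e, mul_one, add_sub_add_left_eq_sub] at a1
        have a2 := (norm_le_pi_norm (fderiv ℝ u' x (e j) - fderiv ℝ u (T x) (e j)) i).trans a1
        simpa [Real.norm_eq_abs] using a2
      have h1 := nsq_close (p := strain dlt (fun j x => fderiv ℝ u' x (e j)) x)
        (q := strain dlt (fun j x => fderiv ℝ u x (e j)) (T x)) (K := 4 * δ * M) (by
          intro i j
          simp only [strain]
          have a1 := abs_le.1 (a j i)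
          have a2 := abs_le.1 (a i j)
          rw [abs_le]
          constructor <;> linarith [a1.1, a1.2, a2.1, a2.2])
      have h2 : 18 * (4 * δ * M) ^ 2 = 288 * δ ^ 2 * M ^ 2 := by ring
      simp only [hF, hF']
      linarith
    -- integrate
    have hcm' : MeasurableSet (cell b') := ZSpan.fundamentalDomain_measurableSet b'
    have hTm : Measurable T := T.continuous.measurable
    have hΩm' : MeasurableSet (T ⁻¹' Ω) := hTm hΩm
    have hcb' : Bornology.IsBounded (cell b') := ZSpan.fundamentalDomain_isBounded b'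
    have hci : ∀ f : R3 → ℝ, Continuous f → IntegrableOn f (cell b') := fun f hf => cont_int b' hf
    have hV' : 0 < (volume (cell b')).toReal := cell_vol_pos b'
    have hV : 0 < (volume (cell b)).toReal := cell_vol_pos b
    have hFT : Continuous fun x => F (T x) := hFc.comp T.continuous
    have hperF : Per b F := by
      intro i x
      have h1 := per_fderiv hup i x
      show nsq (strain dlt (fun j x => fderiv ℝ u x (e j)) (x + b i)) = nsq (strain dlt (fun j x => fderiv ℝ u x (e j)) x)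
      have h2 : strain dlt (fun j x => fderiv ℝ u x (e j)) (x + b i) = strain dlt (fun j x => fderiv ℝ u x (e j)) x := by
        funext k l
        show dlt k l + (fderiv ℝ u (x + b i) (e l) k + fderiv ℝ u (x + b i) (e k) l) / 2 = _
        rw [h1]
        rfl
      rw [h2]
    have hperG : Per b (Ω.indicator F) := by
      intro i x
      by_cases hx : x ∈ Ω
      · rw [Set.indicator_of_mem hx, Set.indicator_of_mem ((hΩp i x).2 hx), hperF i x]
      · rw [Set.indicator_of_notMem hx, Set.indicator_of_notMem (fun h => hx ((hΩp i x).1 h))]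
    have havg := avg_map b b' T hTb (Ω.indicator F) hperG (hFc.measurable.indicator hΩm)
      (fun x => Set.indicator_nonneg (fun y _ => hF0 y) x)
    have hI : ∀ (c : Module.Basis (Fin 3) ℝ R3) (S : Set R3) (hS : MeasurableSet S) (f : R3 → ℝ),
        ∫ x in S ∩ cell c, f x = ∫ x in cell c, S.indicator f x := by
      intro c S hS f
      rw [integral_indicator hS, Measure.restrict_restrict hS]
    have h1 : ∫ x in (T ⁻¹' Ω) ∩ cell b', F' x ≤ ∫ x in (T ⁻¹' Ω) ∩ cell b', (2 * F (T x) + ε) := by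
      refine setIntegral_mono ((hci _ hFc').mono_set inter_subset_right)
        ((hci _ ((continuous_const.mul hFT).add continuous_const)).mono_set inter_subset_right) hpt
    have h2 : ∫ x in (T ⁻¹' Ω) ∩ cell b', (2 * F (T x) + ε) =
        2 * (∫ x in (T ⁻¹' Ω) ∩ cell b', F (T x)) + ε * (volume ((T ⁻¹' Ω) ∩ cell b')).toReal := by
      have g1 : IntegrableOn (fun x => 2 * F (T x)) ((T ⁻¹' Ω) ∩ cell b') :=
        (hci _ (continuous_const.mul hFT)).mono_set inter_subset_right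
      have g2 : IntegrableOn (fun _ : R3 => ε) ((T ⁻¹' Ω) ∩ cell b') :=
        (hci _ continuous_const).mono_set inter_subset_right
      rw [integral_add g1 g2, integral_const_mul]
      congr 1
      simp [mul_comm, Measure.real]
    have h3 : (volume ((T ⁻¹' Ω) ∩ cell b')).toReal ≤ (volume (cell b')).toReal :=
      ENNReal.toReal_mono hcb'.measure_lt_top.ne (measure_mono inter_subset_right)
    have h4 : ∫ x in (T ⁻¹' Ω) ∩ cell b', F (T x) =
        (∫ x in Ω ∩ cell b, F x) / (volume (cell b)).toReal * (volume (cell b')).toReal := by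
      rw [hI b Ω hΩm F, ← havg, hI b' _ hΩm', div_mul_cancel₀ _ hV'.ne']
      rfl
    have h5 : (∫ x in Ω ∩ cell b, F x) / (volume (cell b)).toReal ≤ ε := by
      rw [div_le_iff₀ hV]; exact hE
    have h6 : ∫ x in (T ⁻¹' Ω) ∩ cell b', F (T x) ≤ ε * (volume (cell b')).toReal := by
      rw [h4]; exact mul_le_mul_of_nonneg_right h5 hV'.le
    calc ∫ x in (T ⁻¹' Ω) ∩ cell b', F' x ≤ _ := h1
      _ = _ := h2
      _ ≤ 3 * ε * (volume (cell b')).toReal := by nlinarith [mul_le_mul_of_nonneg_left h3 hε.le]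

end ZT
end Porous3
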