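import Pool.Agent.Porous3.ZC
open MeasureTheory Set
open scoped ContDiff ENNReal
noncomputable section
namespace Porous3
namespace ZT

/-- the scaled inverse of a map close to `N` is close to the identity -/
lemma symm_close (T : R3 ≃L[ℝ] R3) (N δ : ℝ) (hN : 0 < N) (hδ : 0 < δ) (hδ1 : δ ≤ 1 / 2)
    (hT : ∀ x, ‖T x - N • x‖ ≤ δ * N * ‖x‖) (k i : Fin 3) :
    |N * T.symm (e k) i - dlt i k| ≤ 2 * δ := by
  have h1 : N • T.symm (e k) - e k = T.symm (-(T (e k) - N • e k)) := by
    rw [neg_sub, map_sub, ContinuousLinearEquiv.symm_apply_apply, map_smul]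
  have h2 : ‖N • T.symm (e k) - e k‖ ≤ 2 * δ := by
    rw [h1]
    refine (symm_norm T N δ hN hδ1 hT _).trans ?_
    rw [norm_neg]
    have h3 := hT (e k)
    rw [norm_e, mul_one] at h3
    calc 2 / N * ‖T (e k) - N • e k‖ ≤ 2 / N * (δ * N) := by gcongr
      _ = 2 * δ := by field_simp
  have h3 := (norm_le_pi_norm (N • T.symm (e k) - e k) i).trans h2
  have h4 : (e k) i = dlt i k := by
    simp only [e, dlt, Pi.single_apply]
  simpa [Real.norm_eq_abs, h4] using h3

/-- algebra of the push forward of a stress -/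
lemma push_close {δ : ℝ} (hδ : 0 < δ) (hδ1 : δ ≤ 1 / 2) (A s : Fin 3 → Fin 3 → ℝ)
    (hA : ∀ i k, |A i k - dlt i k| ≤ 2 * δ) :
    nsq (fun i j => (∑ k, ∑ l, A i k * A j l * s k l) - s i j) ≤ 8100 * δ ^ 2 * nsq s := by
  set m : ℝ := Real.sqrt (nsq s) with hm
  have hm0 : 0 ≤ m := Real.sqrt_nonneg _
  have hm2 : m ^ 2 = nsq s := Real.sq_sqrt (nsq_nonneg s)
  have hs : ∀ k l, |s k l| ≤ m := by
    intro k l
    rw [← Real.sqrt_sq_eq_abs]
    apply Real.sqrt_le_sqrt
    calc s k l ^ 2 ≤ ∑ l, s k l ^ 2 :=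
          Finset.single_le_sum (f := fun l => s k l ^ 2) (fun l _ => sq_nonneg _) (Finset.mem_univ l)
      _ ≤ ∑ k, ∑ l, s k l ^ 2 :=
          Finset.single_le_sum (f := fun k => ∑ l, s k l ^ 2)
            (fun k _ => Finset.sum_nonneg fun l _ => sq_nonneg _) (Finset.mem_univ k)
  set B : Fin 3 → Fin 3 → ℝ := fun i k => A i k - dlt i k with hB
  have hentry : ∀ i j, (∑ k, ∑ l, A i k * A j l * s k l) - s i j =
      ∑ k, B i k * s k j + ∑ l, B j l * s i l + ∑ k, ∑ l, B i k * (B j l * s k l) := by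
    intro i j
    have h1 : ∀ i k, A i k = dlt i k + B i k := fun i k => by simp only [hB]; ring
    have h2 : ∀ (i : Fin 3) (f : Fin 3 → ℝ), ∑ k, dlt i k * f k = f i := by
      intro i f
      simp [dlt]
    have h3 : ∑ k, ∑ l, A i k * A j l * s k l = ∑ k, A i k * ∑ l, A j l * s k l := by
      refine Finset.sum_congr rfl fun k _ => ?_
      rw [Finset.mul_sum]
      exact Finset.sum_congr rfl fun l _ => by ring
    have h4 : ∀ k, ∑ l, A j l * s k l = s k j + ∑ l, B j l * s k l := by
      intro k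
      rw [← h2 j (s k), ← Finset.sum_add_distrib]
      exact Finset.sum_congr rfl fun l _ => by rw [h1 j l]; ring
    have h5 : ∀ f : Fin 3 → ℝ, ∑ k, A i k * f k = f i + ∑ k, B i k * f k := by
      intro f
      rw [← h2 i f, ← Finset.sum_add_distrib]
      exact Finset.sum_congr rfl fun l _ => by rw [h1 i l]; ring
    rw [h3, h5, h4 i]
    have h6 : ∑ k, B i k * ∑ l, A j l * s k l = ∑ k, B i k * s k j + ∑ k, ∑ l, B i k * (B j l * s k l) := by
      rw [← Finset.sum_add_distrib]
      refine Finset.sum_congr rfl fun k _ => ?_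
      rw [h4 k, mul_add, Finset.mul_sum]
    rw [h6]; ring
  have hbs : ∀ i k a b, |B i k * s a b| ≤ 2 * δ * m := by
    intro i k a b
    rw [abs_mul]
    exact mul_le_mul (hA i k) (hs a b) (abs_nonneg _) (by positivity)
  have hest : ∀ i j, |(∑ k, ∑ l, A i k * A j l * s k l) - s i j| ≤ 30 * δ * m := by
    intro i j
    rw [hentry]
    have g1 : |∑ k, B i k * s k j| ≤ 6 * δ * m := by
      refine (Finset.abs_sum_le_sum_abs _ _).trans ?_
      calc ∑ k, |B i k * s k j| ≤ ∑ k : Fin 3, 2 * δ * m := Finset.sum_le_sum fun k _ => hbs i k k j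
        _ = 6 * δ * m := by rw [Fin.sum_univ_three]; ring
    have g2 : |∑ l, B j l * s i l| ≤ 6 * δ * m := by
      refine (Finset.abs_sum_le_sum_abs _ _).trans ?_
      calc ∑ l, |B j l * s i l| ≤ ∑ k : Fin 3, 2 * δ * m := Finset.sum_le_sum fun k _ => hbs j k i k
        _ = 6 * δ * m := by rw [Fin.sum_univ_three]; ring
    have g3 : |∑ k, ∑ l, B i k * (B j l * s k l)| ≤ 36 * δ ^ 2 * m := by
      refine (Finset.abs_sum_le_sum_abs _ _).trans ?_
      calc ∑ k, |∑ l, B i k * (B j l * s k l)| ≤ ∑ k : Fin 3, ∑ l : Fin 3, 2 * δ * (2 * δ * m) := by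
            refine Finset.sum_le_sum fun k _ => (Finset.abs_sum_le_sum_abs _ _).trans ?_
            refine Finset.sum_le_sum fun l _ => ?_
            rw [abs_mul]
            exact mul_le_mul (hA i k) (hbs j l k l) (abs_nonneg _) (by positivity)
        _ = 36 * δ ^ 2 * m := by simp only [Fin.sum_univ_three]; ring
    refine (abs_add_three _ _ _).trans ?_
    have h1 : 36 * δ ^ 2 * m ≤ 18 * δ * m := by nlinarith [mul_nonneg hδ.le hm0]
    linarith
  calc nsq (fun i j => (∑ k, ∑ l, A i k * A j l * s k l) - s i j)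
      ≤ ∑ i : Fin 3, ∑ j : Fin 3, (30 * δ * m) ^ 2 := by
        refine Finset.sum_le_sum fun i _ => Finset.sum_le_sum fun j _ => ?_
        exact sq_le_sq' (abs_le.1 (hest i j)).1 (abs_le.1 (hest i j)).2
    _ = 8100 * δ ^ 2 * nsq s := by
        rw [← hm2]
        simp only [Fin.sum_univ_three]; ring

lemma nsq_add_le (p q : Fin 3 → Fin 3 → ℝ) : nsq (fun i j => p i j + q i j) ≤ 2 * nsq p + 2 * nsq q := by
  have h1 : ∀ i j, (p i j + q i j) ^ 2 ≤ 2 * p i j ^ 2 + 2 * q i j ^ 2 := fun i j => by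
    nlinarith [sq_nonneg (p i j - q i j)]
  calc nsq (fun i j => p i j + q i j) ≤ ∑ i, ∑ j, (2 * p i j ^ 2 + 2 * q i j ^ 2) :=
        Finset.sum_le_sum fun i _ => Finset.sum_le_sum fun j _ => h1 i j
    _ = 2 * nsq p + 2 * nsq q := by
        simp only [nsq, Fin.sum_univ_three]; ring

/-- transfer of the static certificate -/
theorem Stat.transfer {b : Module.Basis (Fin 3) ℝ R3} {Ω : Set R3} {ε : ℝ} (hε : 0 < ε)
    (hS : Stat b Ω ε) (b' : Module.Basis (Fin 3) ℝ R3) (T : R3 ≃L[ℝ] R3) (N δ : ℝ) (hN : 0 < N) (hδ : 0 < δ)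
    (hδ1 : 180 * δ ≤ 1) (hδε : 180 * δ ≤ ε)
    (hTb : ∀ i, T (b' i) ∈ Submodule.span ℤ (Set.range b)) (hT : ∀ x, ‖T x - N • x‖ ≤ δ * N * ‖x‖) :
    Stat b' (T ⁻¹' Ω) (4 * ε) := by
  intro Q hQs hQt
  obtain ⟨σ, hσ, hσp, hσs, hdiv, hσ0, hσE⟩ := hS Q hQs hQt
  have hδ2 : δ ≤ 1 / 2 := by linarith
  have hTc : ContDiff ℝ ∞ (T : R3 → R3) := T.contDiff
  set S : Fin 3 → Fin 3 → ℝ := fun i k => N * T.symm (e k) i with hS'
  have hSc : ∀ i k, |S i k - dlt i k| ≤ 2 * δ := fun i k => symm_close T N δ hN hδ hδ2 hT k i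
  set σ' : R3 → Fin 3 → Fin 3 → ℝ := fun x i j => ∑ k, ∑ l, S i k * S j l * σ (T x) k l with hσ'
  have hcomp : ∀ k l, ContDiff ℝ ∞ fun x => σ (T x) k l := fun k l => (hσ k l).comp hTc
  have hσ's : ∀ i j, ContDiff ℝ ∞ (fun x => σ' x i j) := by
    intro i j
    exact ContDiff.sum fun k _ => ContDiff.sum fun l _ => contDiff_const.mul (hcomp k l)
  have hσT : ∀ i x, σ (T (x + b' i)) = σ (T x) := by
    intro i x
    rw [map_add, add_comm, per_span hσp _ (hTb i)]
  refine ⟨σ', hσ's, ?_, ?_, ?_, ?_, ?_⟩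
  · intro i x
    simp only [hσ', hσT i x]
  · intro x i j
    simp only [hσ']
    rw [Finset.sum_comm]
    refine Finset.sum_congr rfl fun k _ => Finset.sum_congr rfl fun l _ => ?_
    rw [hσs (T x) l k]; ring
  · intro x i
    have hfd : ∀ k l h, fderiv ℝ (fun y => σ (T y) k l) x h = fderiv ℝ (fun y => σ y k l) (T x) (T h) := by
      intro k l h
      have h1 : HasFDerivAt (fun y => σ y k l) (fderiv ℝ (fun y => σ y k l) (T x)) (T x) :=
        (((hσ k l).differentiable (by simp)) (T x)).hasFDerivAt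
      have h2 := h1.comp x (T.toContinuousLinearMap.hasFDerivAt (x := x))
      have h3 : HasFDerivAt (fun y => σ (T y) k l)
          ((fderiv ℝ (fun y => σ y k l) (T x)).comp (T : R3 →L[ℝ] R3)) x := h2
      rw [h3.fderiv]
      rfl
    have hfd' : ∀ j h, fderiv ℝ (fun y => σ' y i j) x h =
        ∑ k, ∑ l, S i k * S j l * fderiv ℝ (fun y => σ y k l) (T x) (T h) := by
      intro j h
      have h1 : ∀ k l, HasFDerivAt (fun y => S i k * S j l * σ (T y) k l)
          ((S i k * S j l) • fderiv ℝ (fun y => σ (T y) k l) x) x := fun k l =>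
        ((((hcomp k l).differentiable (by simp)) x).hasFDerivAt).const_mul (S i k * S j l)
      have h2 : HasFDerivAt (fun y => σ' y i j)
          (∑ k, ∑ l, (S i k * S j l) • fderiv ℝ (fun y => σ (T y) k l) x) x :=
        HasFDerivAt.fun_sum fun k _ => HasFDerivAt.fun_sum fun l _ => h1 k l
      rw [h2.fderiv]
      simp only [FunLike.coe_sum, Finset.sum_apply, FunLike.coe_smul, Pi.smul_apply, smul_eq_mul, hfd]
    have hvec : ∀ l, ∑ j, S j l • (e j : R3) = N • T.symm (e l) := by
      intro l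
      funext i
      simp only [Finset.sum_apply, Pi.smul_apply, smul_eq_mul, hS', e, Pi.single_apply]
      simp
    have h1 : ∑ j, fderiv ℝ (fun y => σ' y i j) x (e j) =
        ∑ k, S i k * ∑ l, fderiv ℝ (fun y => σ y k l) (T x) (T (∑ j, S j l • (e j : R3))) := by
      simp only [hfd']
      rw [Finset.sum_comm]
      refine Finset.sum_congr rfl fun k _ => ?_
      rw [Finset.sum_comm, Finset.mul_sum]
      refine Finset.sum_congr rfl fun l _ => ?_
      rw [map_sum, map_sum, Finset.mul_sum]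
      refine Finset.sum_congr rfl fun j _ => ?_
      rw [map_smul, map_smul, smul_eq_mul]; ring
    rw [h1]
    refine Finset.sum_eq_zero fun k _ => ?_
    have h2 : ∀ l, fderiv ℝ (fun y => σ y k l) (T x) (T (∑ j, S j l • (e j : R3))) =
        N * fderiv ℝ (fun y => σ y k l) (T x) (e l) := by
      intro l
      rw [hvec, map_smul, ContinuousLinearEquiv.apply_symm_apply, map_smul, smul_eq_mul]
    simp only [h2]
    rw [← Finset.mul_sum, hdiv, mul_zero, mul_zero]
  · intro x hx
    have h0 := hσ0 (T x) hx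
    funext i j
    simp only [hσ', h0, Pi.zero_apply, mul_zero, Finset.sum_const_zero]
  · -- the estimate
    set D : R3 → ℝ := fun x => nsq (fun i j => σ x i j - Q i j) with hD
    have hDc : Continuous D := nsq_cont fun i j => (hσ i j).continuous.sub continuous_const
    have hD'c : Continuous fun x => nsq (fun i j => σ' x i j - Q i j) :=
      nsq_cont fun i j => (hσ's i j).continuous.sub continuous_const
    have hδsq : 32400 * δ ^ 2 ≤ 1 := by nlinarith
    have hδsq' : 32400 * δ ^ 2 ≤ ε := by nlinarith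
    have hpt : ∀ x, nsq (fun i j => σ' x i j - Q i j) ≤ 3 * D (T x) + ε * nsq Q := by
      intro x
      have h1 : nsq (fun i j => σ' x i j - Q i j) ≤ 2 * nsq (fun i j => σ' x i j - σ (T x) i j) +
          2 * nsq (fun i j => σ (T x) i j - Q i j) := by
        have := nsq_add_le (fun i j => σ' x i j - σ (T x) i j) (fun i j => σ (T x) i j - Q i j)
        simpa only [sub_add_sub_cancel] using this
      have h2 : nsq (fun i j => σ' x i j - σ (T x) i j) ≤ 8100 * δ ^ 2 * nsq (σ (T x)) :=
        push_close hδ hδ2 S (σ (T x)) hSc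
      have h3 : nsq (σ (T x)) ≤ 2 * nsq (fun i j => σ (T x) i j - Q i j) + 2 * nsq Q := by
        have := nsq_add_le (fun i j => σ (T x) i j - Q i j) Q
        simpa only [sub_add_cancel] using this
      have h4 : D (T x) = nsq (fun i j => σ (T x) i j - Q i j) := rfl
      rw [h4]
      have h5 := nsq_nonneg (fun i j => σ (T x) i j - Q i j)
      have h6 := nsq_nonneg Q
      have h7 : 8100 * δ ^ 2 * nsq (σ (T x)) ≤
          8100 * δ ^ 2 * (2 * nsq (fun i j => σ (T x) i j - Q i j) + 2 * nsq Q) :=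
        mul_le_mul_of_nonneg_left h3 (by positivity)
      nlinarith [mul_le_mul_of_nonneg_right hδsq h5, mul_le_mul_of_nonneg_right hδsq' h6]
    have hV' : 0 < (volume (cell b')).toReal := cell_vol_pos b'
    have hV : 0 < (volume (cell b)).toReal := cell_vol_pos b
    have hperD : Per b D := by
      intro i x
      simp only [hD, hσp i x]
    have hD0 : ∀ x, 0 ≤ D x := fun x => nsq_nonneg _
    have havg := avg_map b b' T hTb D hperD hDc.measurable hD0
    have h1 : ∫ x in cell b', nsq (fun i j => σ' x i j - Q i j) ≤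
        ∫ x in cell b', (3 * D (T x) + ε * nsq Q) :=
      setIntegral_mono (cont_int b' hD'c)
        (cont_int b' ((continuous_const.mul (hDc.comp T.continuous)).add continuous_const)) hpt
    have h2 : ∫ x in cell b', (3 * D (T x) + ε * nsq Q) =
        3 * (∫ x in cell b', D (T x)) + ε * nsq Q * (volume (cell b')).toReal := by
      have g1 : IntegrableOn (fun x => 3 * D (T x)) (cell b') :=
        cont_int b' (continuous_const.mul (hDc.comp T.continuous))
      have g2 : IntegrableOn (fun _ : R3 => ε * nsq Q) (cell b') := cont_int b' continuous_const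
      rw [integral_add g1 g2, integral_const_mul, setIntegral_const, smul_eq_mul]
      congr 1
      rw [mul_comm]; rfl
    have h3 : (∫ x in cell b, D x) / (volume (cell b)).toReal ≤ ε * nsq Q := by
      rw [div_le_iff₀ hV]; exact hσE
    have h4 : ∫ x in cell b', D (T x) =
        (∫ x in cell b, D x) / (volume (cell b)).toReal * (volume (cell b')).toReal := by
      rw [← havg, div_mul_cancel₀ _ hV'.ne']
    rw [h2, h4] at h1
    refine h1.trans ?_
    have h5 := mul_le_mul_of_nonneg_right h3 hV'.le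
    linarith

end ZT
end Porous3
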