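import Pool.Agent.Porous3.ZD
import Pool.Agent.Porous3.GL
open MeasureTheory Set
open scoped ContDiff ENNReal
noncomputable section
namespace Porous3

lemma Kin.mono {b : Module.Basis (Fin 3) ℝ R3} {Ω : Set R3} {ε ε' : ℝ} (h : Kin b Ω ε) (hle : ε ≤ ε') :
    Kin b Ω ε' := by
  obtain ⟨u, h1, h2, h3, h4⟩ := h
  exact ⟨u, h1, h2, h3, h4.trans (mul_le_mul_of_nonneg_right hle ENNReal.toReal_nonneg)⟩

lemma Stat.mono {b : Module.Basis (Fin 3) ℝ R3} {Ω : Set R3} {ε ε' : ℝ} (h : Stat b Ω ε) (hle : ε ≤ ε') :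
    Stat b Ω ε' := by
  intro Q hQ hQ'
  obtain ⟨σ, h1, h2, h3, h4, h5, h6⟩ := h Q hQ hQ'
  refine ⟨σ, h1, h2, h3, h4, h5, h6.trans ?_⟩
  exact mul_le_mul_of_nonneg_right (mul_le_mul_of_nonneg_right hle (nsq_nonneg Q)) ENNReal.toReal_nonneg

/-- certificates with a small parameter give an effective tensor close to the isotropic tensor with moduli `(0, μ)` -/
theorem close_of_cert (κ : ℝ≥0∞) (hκ : κ ≠ 0) (μ : ℝ) (hμ : 0 < μ) (ε : ℝ) (hε : 0 < ε) :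
    ∃ η : ℝ, 0 < η ∧ ∀ (b : Module.Basis (Fin 3) ℝ R3) (Ω : Set R3), MeasurableSet Ω → Kin b Ω η → Stat b Ω η →
      ∀ E : Fin 3 → Fin 3 → ℝ, (∀ i j, E i j = E j i) →
        effE b Ω κ μ E ≠ ⊤ ∧ |(effE b Ω κ μ E).toReal - 2 * μ * dsq E| ≤ ε * nsq E := by
  set k : ℝ := (κ⁻¹).toReal with hk
  have hk0 : 0 ≤ k := ENNReal.toReal_nonneg
  set θ : ℝ := ε / (4 * (1 + 2 * μ)) with hθ
  have hθ0 : 0 < θ := by positivity
  have hθ1 : θ * (1 + 2 * μ) = ε / 4 := by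
    rw [hθ]; field_simp
  set C : ℝ := 4 * μ ^ 2 * (1 / θ + (1 + 1 / θ) / (2 * μ) + k / 3) with hC
  have hC0 : 0 ≤ C := by positivity
  set D : ℝ := 2 * μ * (1 + 1 / θ) with hD
  have hD0 : 0 ≤ D := by positivity
  set η : ℝ := ε / (4 * (1 + C + D)) with hη
  have hη0 : 0 < η := by positivity
  have hηCD : (1 + C + D) * η = ε / 4 := by
    rw [hη]; field_simp
  have hηC : C * η ≤ ε / 4 := by nlinarith
  have hηD : D * η ≤ ε / 4 := by nlinarith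
  refine ⟨η, hη0, ?_⟩
  intro b Ω hΩm hK hS E hE
  have hup := upper hΩm hK κ μ hμ θ hθ0 E
  have hlo := lower hΩm hη0 hS κ hκ μ hμ θ hθ0 E hE
  have hfin : effE b Ω κ μ E ≠ ⊤ := (hup.trans_lt ENNReal.ofReal_lt_top).ne
  refine ⟨hfin, ?_⟩
  have hn := nsq_nonneg E
  have hd := dsq_nonneg E
  have hdl := dsq_le E
  have htr : (tr3 E / 3) ^ 2 ≤ nsq E := by
    have : tr3 E ^ 2 ≤ 3 * nsq E := by
      have := dsq_nonneg E
      unfold dsq at this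
      linarith
    nlinarith
  have h3 : (effE b Ω κ μ E).toReal ≤
      2 * μ * ((1 + θ) * dsq E + (1 + 1 / θ) * (tr3 E / 3) ^ 2 * η) :=
    ENNReal.toReal_le_of_le_ofReal (by positivity) hup
  have h4 : 2 * μ * dsq E - (θ * (1 + 2 * μ) + 4 * μ ^ 2 * η *
      (1 / θ + (1 + 1 / θ) / (2 * μ) + k / 3)) * nsq E ≤ (effE b Ω κ μ E).toReal := by
    rwa [ENNReal.ofReal_le_iff_le_toReal hfin] at hlo
  have h5 : 2 * μ * θ * dsq E ≤ ε / 4 * nsq E := by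
    have h6 : 2 * μ * θ ≤ ε / 4 := by nlinarith
    calc 2 * μ * θ * dsq E ≤ ε / 4 * dsq E := mul_le_mul_of_nonneg_right h6 hd
      _ ≤ ε / 4 * nsq E := mul_le_mul_of_nonneg_left hdl (by positivity)
  have h6 : D * η * (tr3 E / 3) ^ 2 ≤ ε / 4 * nsq E := by
    calc D * η * (tr3 E / 3) ^ 2 ≤ ε / 4 * (tr3 E / 3) ^ 2 :=
          mul_le_mul_of_nonneg_right hηD (by positivity)
      _ ≤ ε / 4 * nsq E := mul_le_mul_of_nonneg_left htr (by positivity)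
  have h7 : 2 * μ * ((1 + θ) * dsq E + (1 + 1 / θ) * (tr3 E / 3) ^ 2 * η) =
      2 * μ * dsq E + 2 * μ * θ * dsq E + D * η * (tr3 E / 3) ^ 2 := by
    rw [hD]; ring
  have h8 : (θ * (1 + 2 * μ) + 4 * μ ^ 2 * η *
      (1 / θ + (1 + 1 / θ) / (2 * μ) + k / 3)) * nsq E = (ε / 4 + C * η) * nsq E := by
    rw [hθ1, hC]; ring
  have h9 : (ε / 4 + C * η) * nsq E ≤ (ε / 4 + ε / 4) * nsq E := by
    apply mul_le_mul_of_nonneg_right _ hn
    linarith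
  have h10 : 0 ≤ ε * nsq E := by positivity
  rw [h7] at h3
  rw [h8] at h4
  rw [abs_le]
  constructor <;> linarith

namespace ZT

/-- transfer of both certificates to another lattice -/
theorem transfer {b : Module.Basis (Fin 3) ℝ R3} {Ω : Set R3} (hΩm : MeasurableSet Ω)
    (hΩp : ∀ (i : Fin 3) (x : R3), x + b i ∈ Ω ↔ x ∈ Ω) {η : ℝ} (hη : 0 < η) (hK : Kin b Ω (η / 4))
    (hS : Stat b Ω (η / 4)) (b' : Module.Basis (Fin 3) ℝ R3) :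
    ∃ δ : ℝ, 0 < δ ∧ δ < 1 ∧ ∀ (T : R3 ≃L[ℝ] R3) (N : ℝ), 0 < N →
      (∀ i, T (b' i) ∈ Submodule.span ℤ (Set.range b)) → (∀ x, ‖T x - N • x‖ ≤ δ * N * ‖x‖) →
      MeasurableSet (T ⁻¹' Ω) ∧ (∀ (i : Fin 3) (x : R3), x + b' i ∈ T ⁻¹' Ω ↔ x ∈ T ⁻¹' Ω) ∧
        Kin b' (T ⁻¹' Ω) η ∧ Stat b' (T ⁻¹' Ω) η := by
  obtain ⟨δ₀, hδ₀, hKt⟩ := Kin.transfer hΩm hΩp (by positivity) hK
  set δ : ℝ := min δ₀ (min (1 / 180) (η / 4 / 180)) with hδ
  have hδ0 : 0 < δ := by positivity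
  have hδa : δ ≤ δ₀ := min_le_left _ _
  have hδb : δ ≤ 1 / 180 := (min_le_right _ _).trans (min_le_left _ _)
  have hδc : δ ≤ η / 4 / 180 := (min_le_right _ _).trans (min_le_right _ _)
  refine ⟨δ, hδ0, by linarith, ?_⟩
  intro T N hN hTb hT
  have hK' := hKt b' T N δ hN hδ0 hδa hTb hT
  have hS' := Stat.transfer (by positivity : (0:ℝ) < η / 4) hS b' T N δ hN hδ0 (by linarith)
    (by linarith) hTb hT
  have hTm : Measurable T := T.continuous.measurable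
  have hspan : ∀ g ∈ Submodule.span ℤ (Set.range b), ∀ x, g + x ∈ Ω ↔ x ∈ Ω := by
    intro g hg x
    have h1 : Per b (fun x => x ∈ Ω) := fun i x => propext (hΩp i x)
    exact iff_of_eq (per_span h1 g hg x)
  refine ⟨hTm hΩm, ?_, hK'.mono (by linarith), hS'.mono (by linarith)⟩
  intro i x
  rw [Set.mem_preimage, Set.mem_preimage, map_add, add_comm]
  exact hspan _ (hTb i) _

/-- If there are (for every `ε`) lattices and periodic sets with a kinematic and a static certificate, then every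
lattice carries composites whose effective tensor is arbitrarily close to the isotropic tensor with moduli
`(0, μ)`. -/
theorem main3
    (hcert : ∀ ε : ℝ, 0 < ε → ∃ (b : Module.Basis (Fin 3) ℝ R3) (Ω : Set R3), MeasurableSet Ω ∧
      (∀ (i : Fin 3) (x : R3), x + b i ∈ Ω ↔ x ∈ Ω) ∧ Kin b Ω ε ∧ Stat b Ω ε)
    (b' : Module.Basis (Fin 3) ℝ R3) (κ : ℝ≥0∞) (hκ : κ ≠ 0) (μ : ℝ) (hμ : 0 < μ) (ε : ℝ) (hε : 0 < ε) :
    ∃ Ω : Set R3, MeasurableSet Ω ∧ (∀ (i : Fin 3) (x : R3), x + b' i ∈ Ω ↔ x ∈ Ω) ∧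
      ∀ E : Fin 3 → Fin 3 → ℝ, (∀ i j, E i j = E j i) →
        effE b' Ω κ μ E ≠ ⊤ ∧ |(effE b' Ω κ μ E).toReal - 2 * μ * dsq E| ≤ ε * nsq E := by
  obtain ⟨η, hη0, hclose⟩ := close_of_cert κ hκ μ hμ ε hε
  obtain ⟨b, Ω, hΩm, hΩp, hK, hS⟩ := hcert (η / 4) (by positivity)
  obtain ⟨δ, hδ0, hδ1, htr⟩ := transfer hΩm hΩp hη0 hK hS b'
  obtain ⟨T, N, hN, hTb, hT⟩ := exists_T b b' δ hδ0 hδ1
  obtain ⟨h1, h2, h3, h4⟩ := htr T N hN hTb hT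
  exact ⟨T ⁻¹' Ω, h1, h2, hclose b' _ h1 h3 h4⟩

end ZT
end Porous3
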